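import Pool.Agent.Helper56.Rep.Path

/-!
The affine maps of `F_2 ^ n` form a family with few composites.
-/

namespace Pool.Agent.Helper56.Rep

open Finset

/-- The affine maps of the vector space `F_2 ^ n`. -/
def Affine (n : ℕ) : Set (X n → X n) :=
  {T | ∀ x y z : X n, T (fun i => xor (xor (x i) (y i)) (z i)) =
    fun i => xor (xor (T x i) (T y i)) (T z i)}

theorem id_mem_affine {n : ℕ} : (id : X n → X n) ∈ Affine n := fun _ _ _ => rfl

theorem comp_mem_affine {n : ℕ} {S T : X n → X n} (hS : S ∈ Affine n) (hT : T ∈ Affine n) :
    S ∘ T ∈ Affine n := by
  intro x y z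
  simp only [Function.comp]
  rw [hT x y z, hS (T x) (T y) (T z)]

theorem comps_affine (n D : ℕ) : comps (Affine n) D ⊆ Affine n := by
  induction D with
  | zero =>
    intro f hf
    simp only [comps, Set.mem_singleton_iff] at hf
    rw [hf]
    exact id_mem_affine
  | succ D ih =>
    intro f hf
    rcases hf with hf | ⟨g, hg, T, hT, rfl⟩
    · exact ih hf
    · exact comp_mem_affine (ih hg) hT

theorem affine_ext {n : ℕ} {S T : X n → X n} (hS : S ∈ Affine n) (hT : T ∈ Affine n)
    (h0 : S (fun _ => false) = T (fun _ => false))
    (he : ∀ j, S (fun i => decide (i = j)) = T (fun i => decide (i = j))) : S = T := by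
  have key : ∀ A : Finset (Fin n), S (fun i => decide (i ∈ A)) = T (fun i => decide (i ∈ A)) := by
    intro A
    induction A using Finset.induction_on with
    | empty => simpa using h0
    | insert a A ha ih =>
      have h1 : (fun i => decide (i ∈ insert a A)) =
          (fun i => xor (xor (decide (i ∈ A)) (decide (i = a))) false : X n) := by
        funext i
        by_cases hi : i = a
        · subst hi
          simp [ha]
        · simp [mem_insert, hi]
      rw [h1, hS, hT, ih, he a, h0]
  funext x
  have : x = fun i => decide (i ∈ univ.filter (fun i => x i = true)) := by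
    funext i
    simp
  rw [this]
  exact key _

theorem card_affine (n : ℕ) : (Affine n).ncard ≤ 2 ^ ((n + 1) * n) := by
  classical
  have h1 : (Affine n).ncard ≤ (Set.univ : Set (Option (Fin n) → X n)).ncard := by
    apply Set.ncard_le_ncard_of_injOn
      (fun T j => T (match j with | none => fun _ => false | some j => fun i => decide (i = j)))
    · intro T _
      exact Set.mem_univ _
    · intro S hS T hT heq
      apply affine_ext hS hT
      · exact congrFun heq none
      · intro j
        exact congrFun heq (some j)
  refine h1.trans ?_
  rw [Set.ncard_univ, Nat.card_eq_fintype_card, Fintype.card_fun, Fintype.card_fun,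
    Fintype.card_bool, Fintype.card_fin, Fintype.card_option, Fintype.card_fin, ← pow_mul,
    mul_comm]

/-- All composites of affine maps are affine, so there are at most `2 ^ ((n + 1) n)` of them. -/
theorem card_comps_affine (n D : ℕ) : (comps (Affine n) D).ncard ≤ 2 ^ ((n + 1) * n) :=
  (Set.ncard_le_ncard (comps_affine n D) (Set.toFinite _)).trans (card_affine n)

end Pool.Agent.Helper56.Rep
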