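import Pool.Agent.Helper56.Rep.Path

/-!
Selection of a grid of pairwise far elements.
-/

namespace Pool.Agent.Helper56.Rep

open Finset

/-- Greedy independent sets. -/
theorem greedy {α : Type*} [DecidableEq α] (R : α → α → Prop) (hsymm : ∀ a b, R a b → R b a)
    (C : Finset α) (d : ℕ)
    (hd : ∀ a ∈ C, ∃ N : Finset α, N.card ≤ d ∧ ∀ b ∈ C, (R a b ∨ b = a) → b ∈ N) :
    ∀ t : ℕ, t * d < C.card → ∃ S ⊆ C, S.card = t + 1 ∧ ∀ a ∈ S, ∀ b ∈ S, a ≠ b → ¬ R a b := by
  intro t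
  induction t with
  | zero =>
    intro h
    have : 0 < C.card := by omega
    obtain ⟨a, ha⟩ := Finset.card_pos.1 this
    refine ⟨{a}, by simpa using ha, by simp, fun x hx y hy hne => ?_⟩
    rw [Finset.mem_singleton] at hx hy
    exact absurd (hx.trans hy.symm) hne
  | succ t ih =>
    intro h
    obtain ⟨S, hS, hScard, hind⟩ := ih (by rw [Nat.succ_mul] at h; omega)
    choose! N hN using hd
    have hU : (S.biUnion N).card ≤ (t + 1) * d := by
      refine card_biUnion_le.trans ?_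
      refine (Finset.sum_le_card_nsmul _ _ d (fun a ha => (hN a (hS ha)).1)).trans ?_
      rw [hScard, smul_eq_mul]
    have hne : (C \ S.biUnion N).Nonempty := by
      rw [← Finset.card_pos]
      have := Finset.le_card_sdiff (S.biUnion N) C
      omega
    obtain ⟨b, hb⟩ := hne
    obtain ⟨hb1, hb2⟩ := mem_sdiff.1 hb
    rw [mem_biUnion] at hb2
    push Not at hb2
    have hbS : b ∉ S := fun h' => hb2 b h' ((hN b hb1).2 b hb1 (Or.inr rfl))
    refine ⟨insert b S, insert_subset hb1 hS, by rw [card_insert_of_notMem hbS, hScard], ?_⟩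
    intro x hx y hy hxy hR
    rcases mem_insert.1 hx with hx' | hx' <;> rcases mem_insert.1 hy with hy' | hy'
    · exact hxy (hx'.trans hy'.symm)
    · rw [hx'] at hR
      exact hb2 y hy' ((hN y (hS hy')).2 b hb1 (Or.inl (hsymm _ _ hR)))
    · rw [hy'] at hR
      exact hb2 x hx' ((hN x (hS hx')).2 b hb1 (Or.inl hR))
    · exact hind x hx' y hy' hxy hR

/-- First half of the grid lemma: contexts that are far from each other on most elements. -/
theorem grid1 {X : Type*} [DecidableEq X] [DecidableEq (X → X)] (cl : X → X → Prop)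
    [DecidableRel cl]
    (hrefl : ∀ x, cl x x) (hsymm : ∀ x y, cl x y → cl y x) {Bl : ℕ}
    (hball : ∀ x, ∀ Y : Finset X, (∀ y ∈ Y, cl x y) → Y.card ≤ Bl)
    (C : Finset (X → X)) (U : Finset X)
    (hinj : ∀ Γ ∈ C, ∀ Γ' ∈ C, ∀ u ∈ U, ∀ u' ∈ U, Γ u = Γ' u' → Γ = Γ' ∧ u = u')
    (t : ℕ) (hC : 2 * (t + 1) ^ 3 * Bl < C.card) (hU0 : 0 < U.card) :
    ∃ S ⊆ C, S.card = t + 1 ∧ ∃ Bad : Finset X, 2 * Bad.card ≤ U.card ∧
      ∀ Γ ∈ S, ∀ Γ' ∈ S, Γ ≠ Γ' → ∀ u ∈ U, cl (Γ u) (Γ' u) → u ∈ Bad := by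
  classical
  set τ := t + 1 with hτ
  have hτ1 : 1 ≤ τ := by omega
  set R : (X → X) → (X → X) → Prop := fun Γ Γ' =>
    U.card ≤ 2 * τ ^ 2 * (U.filter (fun u => cl (Γ u) (Γ' u))).card with hR
  have hRsymm : ∀ a b, R a b → R b a := by
    intro a b h
    have : U.filter (fun u => cl (b u) (a u)) = U.filter (fun u => cl (a u) (b u)) := by
      apply Finset.filter_congr
      intro u _
      exact ⟨hsymm _ _, hsymm _ _⟩
    rw [hR] at h ⊢
    simp only at h ⊢
    rw [this]
    exact h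
  have hRd : ∀ a ∈ C, ∃ N : Finset (X → X), N.card ≤ 2 * τ ^ 2 * Bl ∧
      ∀ b ∈ C, (R a b ∨ b = a) → b ∈ N := by
    intro a ha
    refine ⟨C.filter (fun b => R a b), ?_, fun b hb h => ?_⟩
    · -- double counting
      have h1 : (C.filter (fun b => R a b)).card * U.card ≤
          ∑ b ∈ C.filter (fun b => R a b), 2 * τ ^ 2 * (U.filter (fun u => cl (a u) (b u))).card := by
        rw [← smul_eq_mul]
        apply Finset.card_nsmul_le_sum
        intro b hb
        exact (mem_filter.1 hb).2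
      have h2 : ∑ b ∈ C.filter (fun b => R a b), (U.filter (fun u => cl (a u) (b u))).card ≤
          U.card * Bl := by
        calc ∑ b ∈ C.filter (fun b => R a b), (U.filter (fun u => cl (a u) (b u))).card
            ≤ ∑ b ∈ C, (U.filter (fun u => cl (a u) (b u))).card :=
              Finset.sum_le_sum_of_subset (filter_subset _ _)
          _ = ∑ u ∈ U, (C.filter (fun b => cl (a u) (b u))).card := by
              simp only [Finset.card_filter]
              rw [Finset.sum_comm]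
          _ ≤ ∑ _u ∈ U, Bl := by
              apply Finset.sum_le_sum
              intro u hu
              have h3 : (C.filter (fun b => cl (a u) (b u))).card =
                  ((C.filter (fun b => cl (a u) (b u))).image (fun b => b u)).card := by
                rw [card_image_of_injOn]
                intro b hb b' hb' heq
                exact (hinj b (mem_filter.1 hb).1 b' (mem_filter.1 hb').1 u hu u hu heq).1
              rw [h3]
              apply hball (a u)
              intro y hy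
              obtain ⟨b, hb, rfl⟩ := mem_image.1 hy
              exact (mem_filter.1 hb).2
          _ = U.card * Bl := by rw [Finset.sum_const, smul_eq_mul]
      rw [← Finset.mul_sum] at h1
      have h3 : (C.filter (fun b => R a b)).card * U.card ≤ (2 * τ ^ 2 * Bl) * U.card := by
        calc (C.filter (fun b => R a b)).card * U.card
            ≤ 2 * τ ^ 2 * ∑ b ∈ C.filter (fun b => R a b),
              (U.filter (fun u => cl (a u) (b u))).card := h1
          _ ≤ 2 * τ ^ 2 * (U.card * Bl) := Nat.mul_le_mul_left _ h2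
          _ = _ := by ring
      exact Nat.le_of_mul_le_mul_right h3 hU0
    · rcases h with h | rfl
      · exact mem_filter.2 ⟨hb, h⟩
      · refine mem_filter.2 ⟨hb, ?_⟩
        have : U.filter (fun u => cl (b u) (b u)) = U := by
          apply Finset.filter_true_of_mem
          intro u _
          exact hrefl _
        rw [hR]
        simp only
        rw [this]
        have : 1 ≤ 2 * τ ^ 2 := by
          have := Nat.one_le_pow 2 τ hτ1
          omega
        calc U.card = 1 * U.card := (one_mul _).symm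
          _ ≤ _ := Nat.mul_le_mul_right _ this
  obtain ⟨S, hSC, hScard, hSind⟩ := greedy R hRsymm C (2 * τ ^ 2 * Bl) hRd t (by
    refine lt_of_le_of_lt ?_ hC
    calc t * (2 * τ ^ 2 * Bl) ≤ τ * (2 * τ ^ 2 * Bl) := Nat.mul_le_mul_right _ (by omega)
      _ = 2 * τ ^ 3 * Bl := by ring)
  set Bad : Finset X := (S ×ˢ S).biUnion (fun p =>
    if p.1 = p.2 then ∅ else U.filter (fun u => cl (p.1 u) (p.2 u))) with hBad
  have hBadcard : 2 * Bad.card ≤ U.card := by
    have h1 : 2 * τ ^ 2 * Bad.card ≤ τ ^ 2 * U.card := by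
      calc 2 * τ ^ 2 * Bad.card
          ≤ 2 * τ ^ 2 * ∑ p ∈ S ×ˢ S,
            (if p.1 = p.2 then (∅ : Finset X) else U.filter (fun u => cl (p.1 u) (p.2 u))).card :=
            Nat.mul_le_mul_left _ card_biUnion_le
        _ = ∑ p ∈ S ×ˢ S, 2 * τ ^ 2 *
            (if p.1 = p.2 then (∅ : Finset X) else U.filter (fun u => cl (p.1 u) (p.2 u))).card := by
            rw [Finset.mul_sum]
        _ ≤ ∑ _p ∈ S ×ˢ S, U.card := by
            apply Finset.sum_le_sum
            intro p hp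
            obtain ⟨hp1, hp2⟩ := mem_product.1 hp
            split_ifs with h
            · simp
            · have := hSind p.1 hp1 p.2 hp2 h
              rw [hR] at this
              simp only at this
              push Not at this
              exact this.le
        _ = τ ^ 2 * U.card := by
            rw [Finset.sum_const, smul_eq_mul, card_product, hScard]
            ring
    have h2 : 0 < τ ^ 2 := by positivity
    have h3 : τ ^ 2 * (2 * Bad.card) ≤ τ ^ 2 * U.card := by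
      calc τ ^ 2 * (2 * Bad.card) = 2 * τ ^ 2 * Bad.card := by ring
        _ ≤ _ := h1
    exact Nat.le_of_mul_le_mul_left h3 h2
  refine ⟨S, hSC, hScard, Bad, hBadcard, ?_⟩
  intro Γ hΓ Γ' hΓ' hne u hu hcl
  rw [hBad, mem_biUnion]
  refine ⟨(Γ, Γ'), mem_product.2 ⟨hΓ, hΓ'⟩, ?_⟩
  simp only [if_neg hne]
  exact mem_filter.2 ⟨hu, hcl⟩

/-- Second half of the grid lemma: the elements. -/
theorem grid2 {X : Type*} [DecidableEq X] [DecidableEq (X → X)] (cl : X → X → Prop)
    [DecidableRel cl]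
    (hrefl : ∀ x, cl x x) (hsymm : ∀ x y, cl x y → cl y x) {Bl : ℕ}
    (hball : ∀ x, ∀ Y : Finset X, (∀ y ∈ Y, cl x y) → Y.card ≤ Bl)
    (S : Finset (X → X)) (U' : Finset X)
    (hinj : ∀ Γ ∈ S, ∀ u ∈ U', ∀ u' ∈ U', Γ u = Γ u' → u = u')
    (t : ℕ) (hScard : S.card = t + 1) (hU : (t + 1) ^ 3 * Bl < U'.card)
    (hfar : ∀ Γ ∈ S, ∀ Γ' ∈ S, Γ ≠ Γ' → ∀ u ∈ U', ¬ cl (Γ u) (Γ' u)) :
    ∃ V ⊆ U', V.card = t + 1 ∧
      ∀ Γ ∈ S, ∀ Γ' ∈ S, ∀ u ∈ V, ∀ u' ∈ V, (Γ ≠ Γ' ∨ u ≠ u') → ¬ cl (Γ u) (Γ' u') := by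
  classical
  set τ := t + 1 with hτ
  set Q : X → X → Prop := fun u u' => ∃ Γ ∈ S, ∃ Γ' ∈ S, cl (Γ u) (Γ' u') with hQ
  have hQsymm : ∀ a b, Q a b → Q b a := by
    rintro a b ⟨Γ, h1, Γ', h2, h3⟩
    exact ⟨Γ', h2, Γ, h1, hsymm _ _ h3⟩
  have hQd : ∀ a ∈ U', ∃ N : Finset X, N.card ≤ τ ^ 2 * Bl ∧
      ∀ b ∈ U', (Q a b ∨ b = a) → b ∈ N := by
    intro a ha
    refine ⟨(S ×ˢ S).biUnion (fun p => U'.filter (fun b => cl (p.1 a) (p.2 b))), ?_, ?_⟩
    · refine card_biUnion_le.trans ?_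
      refine (Finset.sum_le_card_nsmul _ _ Bl (fun p hp => ?_)).trans ?_
      · obtain ⟨hp1, hp2⟩ := mem_product.1 hp
        have h3 : (U'.filter (fun b => cl (p.1 a) (p.2 b))).card =
            ((U'.filter (fun b => cl (p.1 a) (p.2 b))).image (fun b => p.2 b)).card := by
          rw [card_image_of_injOn]
          intro b hb b' hb' heq
          exact hinj p.2 hp2 b (mem_filter.1 hb).1 b' (mem_filter.1 hb').1 heq
        rw [h3]
        apply hball (p.1 a)
        intro y hy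
        obtain ⟨b, hb, rfl⟩ := mem_image.1 hy
        exact (mem_filter.1 hb).2
      · rw [card_product, hScard, smul_eq_mul]
        exact le_of_eq (by ring)
    · intro b hb h
      rw [mem_biUnion]
      rcases h with ⟨Γ, h1, Γ', h2, h3⟩ | rfl
      · exact ⟨(Γ, Γ'), mem_product.2 ⟨h1, h2⟩, mem_filter.2 ⟨hb, h3⟩⟩
      · obtain ⟨Γ, hΓ⟩ : S.Nonempty := by
          rw [← Finset.card_pos, hScard]; omega
        exact ⟨(Γ, Γ), mem_product.2 ⟨hΓ, hΓ⟩, mem_filter.2 ⟨hb, hrefl _⟩⟩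
  obtain ⟨V, hVU, hVcard, hVind⟩ := greedy Q hQsymm U' (τ ^ 2 * Bl) hQd t (by
    refine lt_of_le_of_lt ?_ hU
    calc t * (τ ^ 2 * Bl) ≤ τ * (τ ^ 2 * Bl) := Nat.mul_le_mul_right _ (by omega)
      _ = τ ^ 3 * Bl := by ring)
  refine ⟨V, hVU, hVcard, ?_⟩
  intro Γ hΓ Γ' hΓ' u hu u' hu' hne hcl
  by_cases huu : u = u'
  · subst huu
    have hΓΓ : Γ ≠ Γ' := by
      rcases hne with h | h
      · exact h
      · exact absurd rfl h
    exact hfar Γ hΓ Γ' hΓ' hΓΓ u (hVU hu) hcl
  · exact hVind u hu u' hu' huu ⟨Γ, hΓ, Γ', hΓ', hcl⟩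

/-- The density version: if every grid of far elements contains an element outside `G`, then many
pairs (context, element) give elements outside `G`. -/
theorem dense {X : Type*} [DecidableEq X] [DecidableEq (X → X)] (cl : X → X → Prop)
    [DecidableRel cl]
    (hrefl : ∀ x, cl x x) (hsymm : ∀ x y, cl x y → cl y x) {Bl : ℕ}
    (hball : ∀ x, ∀ Y : Finset X, (∀ y ∈ Y, cl x y) → Y.card ≤ Bl)
    (C : Finset (X → X)) (U : Finset X)
    (hinj : ∀ Γ ∈ C, ∀ Γ' ∈ C, ∀ u ∈ U, ∀ u' ∈ U, Γ u = Γ' u' → Γ = Γ' ∧ u = u')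
    (t : ℕ) (hC : 4 * (t + 1) ^ 3 * Bl < C.card) (hU : 4 * (t + 1) ^ 3 * Bl < U.card)
    (G : Finset X)
    (hgrid : ∀ S ⊆ C, ∀ V ⊆ U, S.card = t + 1 → V.card = t + 1 →
      (∀ Γ ∈ S, ∀ Γ' ∈ S, ∀ u ∈ V, ∀ u' ∈ V, (Γ ≠ Γ' ∨ u ≠ u') → ¬ cl (Γ u) (Γ' u')) →
      ∃ Γ ∈ S, ∃ u ∈ V, Γ u ∉ G) :
    C.card * U.card ≤ 8 * (t + 1) * ((C ×ˢ U).filter (fun q => q.1 q.2 ∉ G)).card := by
  classical
  by_contra hcon
  push Not at hcon
  set Z := (C ×ˢ U).filter (fun q => q.1 q.2 ∉ G) with hZ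
  set z : (X → X) → Finset X := fun Γ => U.filter (fun u => Γ u ∉ G) with hz
  have hZsum : Z.card = ∑ Γ ∈ C, (z Γ).card := by
    rw [hZ, Finset.card_filter, Finset.sum_product]
    apply Finset.sum_congr rfl
    intro Γ _
    rw [hz]
    simp only
    rw [Finset.card_filter]
  have hU0 : 0 < U.card := by omega
  set C0 := C.filter (fun Γ => 4 * (t + 1) * (z Γ).card ≤ U.card) with hC0
  have hC0card : C.card < 2 * C0.card := by
    have h1 : (C.filter (fun Γ => ¬ 4 * (t + 1) * (z Γ).card ≤ U.card)).card * U.card ≤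
        4 * (t + 1) * Z.card := by
      calc (C.filter (fun Γ => ¬ 4 * (t + 1) * (z Γ).card ≤ U.card)).card * U.card
          ≤ ∑ Γ ∈ C.filter (fun Γ => ¬ 4 * (t + 1) * (z Γ).card ≤ U.card),
              4 * (t + 1) * (z Γ).card := by
            rw [← smul_eq_mul]
            apply Finset.card_nsmul_le_sum
            intro Γ hΓ
            have := (mem_filter.1 hΓ).2
            omega
        _ ≤ ∑ Γ ∈ C, 4 * (t + 1) * (z Γ).card :=
            Finset.sum_le_sum_of_subset (filter_subset _ _)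
        _ = 4 * (t + 1) * Z.card := by rw [hZsum, Finset.mul_sum]
    have h2 : C0.card + (C.filter (fun Γ => ¬ 4 * (t + 1) * (z Γ).card ≤ U.card)).card =
        C.card := Finset.card_filter_add_card_filter_not _
    set c1 := (C.filter (fun Γ => ¬ 4 * (t + 1) * (z Γ).card ≤ U.card)).card with hc1
    have h3 : 2 * c1 * U.card < C.card * U.card := by
      calc 2 * c1 * U.card = 2 * (c1 * U.card) := by ring
        _ ≤ 2 * (4 * (t + 1) * Z.card) := Nat.mul_le_mul_left _ h1
        _ = 8 * (t + 1) * Z.card := by ring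
        _ < C.card * U.card := hcon
    have h4 : 2 * c1 < C.card := Nat.lt_of_mul_lt_mul_right h3
    omega
  obtain ⟨S, hS, hScard, Bad, hBad, hBad2⟩ := grid1 cl hrefl hsymm hball C0 U
    (fun Γ hΓ Γ' hΓ' => hinj Γ (mem_filter.1 hΓ).1 Γ' (mem_filter.1 hΓ').1) t (by
      have : 4 * (t + 1) ^ 3 * Bl = 2 * (2 * (t + 1) ^ 3 * Bl) := by ring
      omega) hU0
  have hSC : S ⊆ C := hS.trans (filter_subset _ _)
  set U' := (U \ Bad) \ S.biUnion z with hU'
  have hU'card : (t + 1) ^ 3 * Bl < U'.card := by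
    have h1 := Finset.le_card_sdiff Bad U
    have h2 := Finset.le_card_sdiff (S.biUnion z) (U \ Bad)
    rw [← hU'] at h2
    have h3 : 4 * (S.biUnion z).card ≤ U.card := by
      have h4 : 4 * (t + 1) * (S.biUnion z).card ≤ (t + 1) * U.card := by
        calc 4 * (t + 1) * (S.biUnion z).card ≤ 4 * (t + 1) * ∑ Γ ∈ S, (z Γ).card :=
              Nat.mul_le_mul_left _ card_biUnion_le
          _ = ∑ Γ ∈ S, 4 * (t + 1) * (z Γ).card := by rw [Finset.mul_sum]
          _ ≤ ∑ _Γ ∈ S, U.card := Finset.sum_le_sum (fun Γ hΓ => (mem_filter.1 (hS hΓ)).2)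
          _ = (t + 1) * U.card := by rw [Finset.sum_const, hScard, smul_eq_mul]
      have h5 : (t + 1) * (4 * (S.biUnion z).card) ≤ (t + 1) * U.card := by
        calc (t + 1) * (4 * (S.biUnion z).card) = 4 * (t + 1) * (S.biUnion z).card := by ring
          _ ≤ _ := h4
      exact Nat.le_of_mul_le_mul_left h5 (by omega)
    have h6 : 4 * ((t + 1) ^ 3 * Bl) < U.card := by
      calc 4 * ((t + 1) ^ 3 * Bl) = 4 * (t + 1) ^ 3 * Bl := by ring
        _ < _ := hU
    omega
  have hU'U : U' ⊆ U := sdiff_subset.trans sdiff_subset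
  obtain ⟨V, hV, hVcard, hfar⟩ := grid2 cl hrefl hsymm hball S U'
    (fun Γ hΓ u hu u' hu' h =>
      (hinj Γ (hSC hΓ) Γ (hSC hΓ) u (hU'U hu) u' (hU'U hu') h).2) t hScard hU'card
    (fun Γ hΓ Γ' hΓ' hne u hu hcl =>
      (mem_sdiff.1 (mem_sdiff.1 hu).1).2 (hBad2 Γ hΓ Γ' hΓ' hne u (hU'U hu) hcl))
  obtain ⟨Γ, hΓ, u, hu, hG⟩ := hgrid S hSC V (hV.trans hU'U) hScard hVcard hfar
  apply (mem_sdiff.1 (hV hu)).2
  rw [mem_biUnion]
  exact ⟨Γ, hΓ, mem_filter.2 ⟨hU'U (hV hu), hG⟩⟩

end Pool.Agent.Helper56.Rep
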