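import Pool.Agent.Helper56.Rep.Path

/-!
Unambiguous programs with reparametrisations.
-/

namespace Pool.Agent.Helper56.Rep

open Finset

/-- A program with `s` gates `0, …, s - 1`, of depth at most `D`, with reparametrisations in `Λ`
and free leaves with at most `W` elements.  The gate `v` computes the set `M v` of assignments:
it is a leaf (an arbitrary set with at most `W` elements), or a disjoint union `T(M a) ⊔ T'(M b)`
or an unambiguous product `{μ(x, y) : x ∈ M a, y ∈ M b}` for two earlier gates `a` and `b`. -/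
def IsProgram {n : ℕ} (Λ : Set (X n → X n)) (D W s : ℕ) (M : ℕ → Finset (X n)) : Prop :=
  ∃ d : ℕ → ℕ, ∀ v < s, d v ≤ D ∧
    ((M v).card ≤ W ∨
      (∃ (a b : ℕ) (T T' : X n → X n), a < v ∧ b < v ∧ d a < d v ∧ d b < d v ∧
        T ∈ Λ ∧ T' ∈ Λ ∧ Set.InjOn T (M a) ∧ Set.InjOn T' (M b) ∧
        Disjoint ((M a).image T) ((M b).image T') ∧ M v = (M a).image T ∪ (M b).image T') ∨
      (∃ (a b : ℕ) (μ : X n → X n → X n), a < v ∧ b < v ∧ d a < d v ∧ d b < d v ∧
        (∀ x ∈ M a, (fun y => μ x y) ∈ Λ) ∧ (∀ y ∈ M b, (fun x => μ x y) ∈ Λ) ∧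
        (∀ x ∈ M a, ∀ y ∈ M b, ∀ x' ∈ M a, ∀ y' ∈ M b, μ x y = μ x' y' → x = x' ∧ y = y') ∧
        M v = (M a ×ˢ M b).image (fun p => μ p.1 p.2)))

variable {n : ℕ} {Λ : Set (X n → X n)} {D W s : ℕ} {M : ℕ → Finset (X n)}

theorem children {d : ℕ → ℕ} {v K : ℕ}
    (h : (∃ (a b : ℕ) (T T' : X n → X n), a < v ∧ b < v ∧ d a < d v ∧ d b < d v ∧
        T ∈ Λ ∧ T' ∈ Λ ∧ Set.InjOn T (M a) ∧ Set.InjOn T' (M b) ∧
        Disjoint ((M a).image T) ((M b).image T') ∧ M v = (M a).image T ∪ (M b).image T') ∨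
      (∃ (a b : ℕ) (μ : X n → X n → X n), a < v ∧ b < v ∧ d a < d v ∧ d b < d v ∧
        (∀ x ∈ M a, (fun y => μ x y) ∈ Λ) ∧ (∀ y ∈ M b, (fun x => μ x y) ∈ Λ) ∧
        (∀ x ∈ M a, ∀ y ∈ M b, ∀ x' ∈ M a, ∀ y' ∈ M b, μ x y = μ x' y' → x = x' ∧ y = y') ∧
        M v = (M a ×ˢ M b).image (fun p => μ p.1 p.2))) :
    ∃ ch : Finset (ℕ × (X n → X n)),
      (∀ e ∈ ch, e.1 < v ∧ d e.1 < d v ∧ e.2 ∈ Λ ∧ ∀ u ∈ M e.1, e.2 u ∈ M v) ∧
      (∀ u ∈ M v, ∃ e ∈ ch, ∃ u' ∈ M e.1, e.2 u' = u) ∧
      (∀ e ∈ ch, ∀ e' ∈ ch, ∀ u ∈ M e.1, ∀ u' ∈ M e'.1, e.2 u = e'.2 u' → e = e' ∧ u = u') ∧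
      ∑ e ∈ ch.filter (fun e => (M e.1).card ≤ K), (M e.1).card ≤ 2 * K ^ 2 := by
  classical
  rcases h with h | h
  · obtain ⟨a, b, T, T', ha, hb, hda, hdb, hT, hT', hi, hi', hd, hM⟩ := h
    refine ⟨{(a, T), (b, T')}, ?_, ?_, ?_, ?_⟩
    · intro e he
      rw [mem_insert, Finset.mem_singleton] at he
      rcases he with rfl | rfl
      · exact ⟨ha, hda, hT, fun u hu => by rw [hM]; exact mem_union_left _ (mem_image_of_mem _ hu)⟩
      · exact ⟨hb, hdb, hT', fun u hu => by
          rw [hM]; exact mem_union_right _ (mem_image_of_mem _ hu)⟩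
    · intro u hu
      rw [hM, mem_union, mem_image, mem_image] at hu
      rcases hu with ⟨u', hu', h⟩ | ⟨u', hu', h⟩
      · exact ⟨(a, T), by simp, u', hu', h⟩
      · exact ⟨(b, T'), by simp, u', hu', h⟩
    · intro e he e' he' u hu u' hu' heq
      rw [mem_insert, Finset.mem_singleton] at he he'
      rcases he with rfl | rfl <;> rcases he' with rfl | rfl
      · exact ⟨rfl, hi hu hu' heq⟩
      · exact absurd (mem_image_of_mem T' hu')
          (fun h => Finset.disjoint_left.1 hd (mem_image_of_mem T hu) (by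
            simp only at heq; rw [heq]; exact h))
      · exact absurd (mem_image_of_mem T' hu)
          (fun h => Finset.disjoint_left.1 hd (mem_image_of_mem T hu') (by
            simp only at heq; rw [← heq]; exact h))
      · exact ⟨rfl, hi' hu hu' heq⟩
    · refine (Finset.sum_le_card_nsmul _ _ K (fun e he => (mem_filter.1 he).2)).trans ?_
      rw [smul_eq_mul]
      have h1 : (({(a, T), (b, T')} : Finset (ℕ × (X n → X n))).filter
          (fun e => (M e.1).card ≤ K)).card ≤ 2 := (card_filter_le _ _).trans card_le_two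
      have h2 : K ≤ K ^ 2 := by
        rcases Nat.eq_zero_or_pos K with h | h
        · simp [h]
        · exact Nat.le_self_pow (by norm_num) K
      exact Nat.mul_le_mul h1 h2
  · obtain ⟨a, b, μ, ha, hb, hda, hdb, hμ, hμ', hi, hM⟩ := h
    rcases le_total (M b).card (M a).card with hle | hle
    · refine ⟨(M b).image (fun y => (a, fun x => μ x y)), ?_, ?_, ?_, ?_⟩
      · intro e he
        obtain ⟨y, hy, rfl⟩ := mem_image.1 he
        refine ⟨ha, hda, hμ' y hy, fun u hu => ?_⟩
        rw [hM]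
        exact mem_image.2 ⟨(u, y), mem_product.2 ⟨hu, hy⟩, rfl⟩
      · intro u hu
        rw [hM, mem_image] at hu
        obtain ⟨⟨x, y⟩, hxy, rfl⟩ := hu
        obtain ⟨hx, hy⟩ := mem_product.1 hxy
        exact ⟨(a, fun x => μ x y), mem_image_of_mem _ hy, x, hx, rfl⟩
      · intro e he e' he' u hu u' hu' heq
        obtain ⟨y, hy, rfl⟩ := mem_image.1 he
        obtain ⟨y', hy', rfl⟩ := mem_image.1 he'
        obtain ⟨h1, h2⟩ := hi u hu y hy u' hu' y' hy' heq
        subst h1 h2
        exact ⟨rfl, rfl⟩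
      · by_cases hl : (M a).card ≤ K
        · have h1 : ((M b).image (fun y => ((a, fun x => μ x y) : ℕ × (X n → X n)))).card ≤ K :=
            card_image_le.trans (hle.trans hl)
          calc ∑ e ∈ ((M b).image (fun y => ((a, fun x => μ x y) : ℕ × (X n → X n)))).filter
                (fun e => (M e.1).card ≤ K), (M e.1).card
              ≤ (((M b).image (fun y => ((a, fun x => μ x y) : ℕ × (X n → X n)))).filter
                (fun e => (M e.1).card ≤ K)).card • K :=
                Finset.sum_le_card_nsmul _ _ K (fun e he => (mem_filter.1 he).2)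
            _ ≤ K * K := Nat.mul_le_mul_right _ ((card_filter_le _ _).trans h1)
            _ ≤ 2 * K ^ 2 := by rw [pow_two]; omega
        · have h1 : ((M b).image (fun y => ((a, fun x => μ x y) : ℕ × (X n → X n)))).filter
              (fun e => (M e.1).card ≤ K) = ∅ := by
            apply Finset.filter_eq_empty_iff.2
            intro e he
            obtain ⟨y, hy, rfl⟩ := mem_image.1 he
            exact hl
          rw [h1]
          simp
    · refine ⟨(M a).image (fun x => (b, fun y => μ x y)), ?_, ?_, ?_, ?_⟩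
      · intro e he
        obtain ⟨x, hx, rfl⟩ := mem_image.1 he
        refine ⟨hb, hdb, hμ x hx, fun u hu => ?_⟩
        rw [hM]
        exact mem_image.2 ⟨(x, u), mem_product.2 ⟨hx, hu⟩, rfl⟩
      · intro u hu
        rw [hM, mem_image] at hu
        obtain ⟨⟨x, y⟩, hxy, rfl⟩ := hu
        obtain ⟨hx, hy⟩ := mem_product.1 hxy
        exact ⟨(b, fun y => μ x y), mem_image.2 ⟨x, hx, rfl⟩, y, hy, rfl⟩
      · intro e he e' he' u hu u' hu' heq
        obtain ⟨x, hx, rfl⟩ := mem_image.1 he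
        obtain ⟨x', hx', rfl⟩ := mem_image.1 he'
        obtain ⟨h1, h2⟩ := hi x hx u hu x' hx' u' hu' heq
        subst h1 h2
        exact ⟨rfl, rfl⟩
      · by_cases hl : (M b).card ≤ K
        · have h1 : ((M a).image (fun x => ((b, fun y => μ x y) : ℕ × (X n → X n)))).card ≤ K :=
            card_image_le.trans (hle.trans hl)
          calc ∑ e ∈ ((M a).image (fun x => ((b, fun y => μ x y) : ℕ × (X n → X n)))).filter
                (fun e => (M e.1).card ≤ K), (M e.1).card
              ≤ (((M a).image (fun x => ((b, fun y => μ x y) : ℕ × (X n → X n)))).filter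
                (fun e => (M e.1).card ≤ K)).card • K :=
                Finset.sum_le_card_nsmul _ _ K (fun e he => (mem_filter.1 he).2)
            _ ≤ K * K := Nat.mul_le_mul_right _ ((card_filter_le _ _).trans h1)
            _ ≤ 2 * K ^ 2 := by rw [pow_two]; omega
        · have h1 : ((M a).image (fun x => ((b, fun y => μ x y) : ℕ × (X n → X n)))).filter
              (fun e => (M e.1).card ≤ K) = ∅ := by
            apply Finset.filter_eq_empty_iff.2
            intro e he
            obtain ⟨x, hx, rfl⟩ := mem_image.1 he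
            exact hl
          rw [h1]
          simp

/-- a program gives the decomposition data -/
theorem exists_dec (h : IsProgram Λ D W s M) {K top : ℕ} (htop : top < s) :
    Nonempty (Dec Λ D K W top M) := by
  classical
  obtain ⟨d, hd⟩ := h
  have hex : ∀ v, ∃ ch : Finset (ℕ × (X n → X n)), v ≤ top → ¬ (M v).card ≤ W →
      (∀ e ∈ ch, e.1 < v ∧ d e.1 < d v ∧ e.2 ∈ Λ ∧ ∀ u ∈ M e.1, e.2 u ∈ M v) ∧
      (∀ u ∈ M v, ∃ e ∈ ch, ∃ u' ∈ M e.1, e.2 u' = u) ∧
      (∀ e ∈ ch, ∀ e' ∈ ch, ∀ u ∈ M e.1, ∀ u' ∈ M e'.1, e.2 u = e'.2 u' → e = e' ∧ u = u') ∧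
      ∑ e ∈ ch.filter (fun e => (M e.1).card ≤ K), (M e.1).card ≤ 2 * K ^ 2 := by
    intro v
    by_cases h : v ≤ top ∧ ¬ (M v).card ≤ W
    · obtain ⟨ch, hch⟩ := children (d := d) (K := K) ((hd v (by omega)).2.resolve_left h.2)
      exact ⟨ch, fun _ _ => hch⟩
    · exact ⟨∅, fun h1 h2 => absurd ⟨h1, h2⟩ h⟩
  choose ch hch using hex
  exact ⟨{
    ch := ch
    Lf := {v | (M v).card ≤ W}
    lfW := fun v hv => hv
    d := d
    dtop := (hd top htop).1
    lt := fun v hv hL _ e he => ((hch v hv hL).1 e he).1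
    dlt := fun v hv hL _ e he => ((hch v hv hL).1 e he).2.1
    mem := fun v hv hL _ e he => ((hch v hv hL).1 e he).2.2.1
    sub := fun v hv hL _ e he => ((hch v hv hL).1 e he).2.2.2
    ex := fun v hv hL _ => (hch v hv hL).2.1
    uniq := fun v hv hL _ => (hch v hv hL).2.2.1
    light := fun v hv hL _ => (hch v hv hL).2.2.2 }⟩

end Pool.Agent.Helper56.Rep
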