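import Pool.Agent.Helper56.Rep.Exist
import Pool.Agent.Helper56.Rep.Program
import Pool.Agent.Helper56.Rep.Grid
import Pool.Agent.Helper56.Iso.Count

/-!
The lower bound in terms of the parameters.
-/

namespace Pool.Agent.Helper56.Rep

open Finset

variable {n k m : ℕ}

theorem ball_card {h : ℕ} (hh : 0 < h) (x : X n) (Y : Finset (X n))
    (hY : ∀ y ∈ Y, h * hammingDist x y < n) : Y.card ≤ Iso.ball n (n / h) := by
  classical
  unfold Iso.ball
  apply Finset.card_le_card_of_injOn (fun y => univ.filter (fun i => x i ≠ y i))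
  · intro y hy
    simp only [coe_filter, mem_univ, true_and, Set.mem_ofPred_eq]
    have h1 := hY y hy
    rw [Nat.le_div_iff_mul_le hh, mul_comm]
    unfold hammingDist at h1
    exact h1.le
  · intro y _ y' _ heq
    funext i
    have h1 := congrArg (fun S : Finset (Fin n) => i ∈ S) heq
    simp only [mem_filter, mem_univ, true_and, ne_eq, eq_iff_iff, not_iff_not] at h1
    cases hx : x i <;> cases hy : y i <;> cases hy' : y' i <;> simp_all

/-- The main bound. -/
theorem bound {φ : Fin m → Clause k n} {Λ : Set (X n → X n)} {D W s h t K : ℕ}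
    {M : ℕ → Finset (X n)} {𝒞 : Finset (X n → X n)} (hn : 0 < n) (hh : 0 < h)
    (h𝒞 : ∀ Γ ∈ comps Λ D, Γ ∈ 𝒞) (hNG : NoGrid φ 𝒞 (t + 1) h)
    (hK : 4 * (t + 1) ^ 3 * Iso.ball n (n / h) ≤ K)
    (hP : IsProgram Λ D W s M) {top : ℕ} (htop : top < s) (hbig : K < (M top).card) :
    (M top).card ≤ s * (K * (2 * K ^ 2 + W)) + 8 * (t + 1) * (M top \ models φ).card := by
  classical
  obtain ⟨P⟩ := exists_dec hP (K := K) htop
  have hgrid : ∀ St : Set ℕ, ∀ v ≤ top, K < (M v).card → K < (P.ctx St v).card →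
      (P.ctx St v).card * (M v).card ≤
        8 * (t + 1) * ((P.ctx St v ×ˢ M v).filter (fun q => q.1 q.2 ∉ models φ)).card := by
    intro St v hv hKv hcon
    refine dense (fun x y : X n => h * hammingDist x y < n)
      (fun x => by rw [hammingDist_self]; omega)
      (fun x y hxy => by rw [hammingDist_comm]; exact hxy)
      (Bl := Iso.ball n (n / h)) (fun x Y hY => ball_card hh x Y hY) (P.ctx St v) (M v)
      (fun Γ hΓ Γ' hΓ' u hu u' hu' heq =>
        P.reach_inj (P.mem_ctx.1 hΓ) (P.mem_ctx.1 hΓ') hu hu' heq) t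
      (lt_of_le_of_lt hK hcon) (lt_of_le_of_lt hK hKv) (models φ) ?_
    intro S hS V hV hSc hVc hfar
    have hSC : S ⊆ 𝒞 := by
      intro Γ hΓ
      apply h𝒞
      exact comps_mono (Nat.sub_le _ _) (P.reach_comps (P.mem_ctx.1 (hS hΓ))).2
    obtain ⟨Γ, hΓ, u, hu, hns⟩ := hNG S hSC V hSc hVc (by
      intro Γ hΓ Γ' hΓ' u hu u' hu' hne
      have := hfar Γ hΓ Γ' hΓ' u hu u' hu' hne
      push Not at this
      exact this)
    exact ⟨Γ, hΓ, u, hu, by rw [mem_models]; exact hns⟩
  have hcount := P.count (models φ) (8 * (t + 1)) hbig hgrid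
  exact hcount.trans (Nat.add_le_add_right (Nat.mul_le_mul_right _ (by omega)) _)

end Pool.Agent.Helper56.Rep
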