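import Pool.Agent.Helper56.Rep.Path

/-!
Random CNF formulas without grids of models.
-/

namespace Pool.Agent.Helper56.Rep

open Finset

/-- A clause with `k` literals on `n` variables: the `l`-th literal is on the variable `(c l).1`
and it is violated exactly by the value `(c l).2`. -/
abbrev Clause (k n : ℕ) := Fin k → Fin n × Bool

/-- The assignment `x` satisfies the CNF formula with the clauses `φ 0, …, φ (m - 1)`. -/
def Sat {m k n : ℕ} (φ : Fin m → Clause k n) (x : X n) : Prop :=
  ∀ j, ∃ l, x (φ j l).1 ≠ (φ j l).2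

variable {n k : ℕ}

/-- the clauses violated by `x` -/
def viol (k : ℕ) (x : X n) : Finset (Clause k n) :=
  Fintype.piFinset (fun _ => univ.filter (fun p : Fin n × Bool => x p.1 = p.2))

theorem mem_viol {x : X n} {C : Clause k n} : C ∈ viol k x ↔ ∀ l, x (C l).1 = (C l).2 := by
  unfold viol
  simp [Fintype.mem_piFinset]

theorem card_lit (P : Fin n → Prop) [DecidablePred P] (x : X n) :
    (univ.filter (fun p : Fin n × Bool => P p.1 ∧ x p.1 = p.2)).card = (univ.filter P).card := by
  symm
  apply Finset.card_nbij' (fun i => (i, x i)) (fun p => p.1)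
  · intro i hi
    simpa using hi
  · intro p hp
    simp only [coe_filter, mem_univ, true_and, Set.mem_ofPred_eq] at hp ⊢
    exact hp.1
  · intro i _
    rfl
  · intro p hp
    simp only [coe_filter, mem_univ, true_and, Set.mem_ofPred_eq] at hp
    exact Prod.ext rfl hp.2

theorem card_viol (x : X n) : (viol k x).card = n ^ k := by
  unfold viol
  rw [Fintype.card_piFinset, Finset.prod_const, card_univ, Fintype.card_fin]
  have := card_lit (fun _ : Fin n => True) x
  simp only [true_and, Finset.filter_true, card_univ, Fintype.card_fin] at this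
  rw [this]

theorem card_viol_inter (x y : X n) :
    (viol k x ∩ viol k y).card = (univ.filter (fun i => x i = y i)).card ^ k := by
  have h : viol k x ∩ viol k y = Fintype.piFinset
      (fun _ => univ.filter (fun p : Fin n × Bool => x p.1 = y p.1 ∧ x p.1 = p.2)) := by
    ext C
    rw [mem_inter, mem_viol, mem_viol, Fintype.mem_piFinset]
    simp only [mem_filter, mem_univ, true_and]
    constructor
    · rintro ⟨h1, h2⟩ l
      exact ⟨(h1 l).trans (h2 l).symm, h1 l⟩
    · intro h
      exact ⟨fun l => (h l).2, fun l => (h l).1 ▸ (h l).2⟩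
  have h2 := card_lit (fun i => x i = y i) x
  rw [h, Fintype.card_piFinset, Finset.prod_const, card_univ, Fintype.card_fin, h2]

/-- Bonferroni -/
theorem bonferroni {α β : Type*} [DecidableEq α] [DecidableEq β] (A : β → Finset α) {a g : ℕ}
    (hA : ∀ y, (A y).card = a) :
    ∀ Y : Finset β, (∀ y ∈ Y, ∀ y' ∈ Y, y ≠ y' → (A y ∩ A y').card ≤ g) →
    Y.card * a ≤ (Y.biUnion A).card + Y.card ^ 2 * g := by
  intro Y
  induction Y using Finset.induction_on with
  | empty => intro _; simp
  | insert y Y hy ih =>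
    intro h
    have h1 := ih (fun a ha b hb => h a (mem_insert_of_mem ha) b (mem_insert_of_mem hb))
    rw [biUnion_insert, card_insert_of_notMem hy]
    have h2 := card_union_add_card_inter (A y) (Y.biUnion A)
    have h3 : (A y ∩ Y.biUnion A).card ≤ Y.card * g := by
      rw [Finset.inter_biUnion]
      refine card_biUnion_le.trans ?_
      refine (Finset.sum_le_card_nsmul _ _ g (fun y' hy' => ?_)).trans (by rw [smul_eq_mul])
      exact h y (mem_insert_self _ _) y' (mem_insert_of_mem hy')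
        (fun heq => hy (heq ▸ hy'))
    have h4 : (Y.card + 1) ^ 2 * g = Y.card ^ 2 * g + 2 * (Y.card * g) + g := by ring
    rw [add_mul, one_mul, h4]
    have := hA y
    omega

/-- the clauses satisfied by all elements of `Y` -/
def good (k : ℕ) (Y : Finset (X n)) : Finset (Clause k n) :=
  univ \ Y.biUnion (viol k)

theorem mem_good {Y : Finset (X n)} {C : Clause k n} :
    C ∈ good k Y ↔ ∀ y ∈ Y, ∃ l, y (C l).1 ≠ (C l).2 := by
  unfold good
  simp only [mem_sdiff, mem_univ, true_and, mem_biUnion, mem_viol, not_exists, not_and,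
    not_forall, ne_eq]

theorem card_clause : Fintype.card (Clause k n) = (2 * n) ^ k := by
  rw [Fintype.card_fun, Fintype.card_prod, Fintype.card_fin, Fintype.card_fin,
    Fintype.card_bool, mul_comm]

theorem card_agree (x y : X n) :
    (univ.filter (fun i => x i = y i)).card + hammingDist x y = n := by
  unfold hammingDist
  have := Finset.card_filter_add_card_filter_not (s := (univ : Finset (Fin n)))
    (fun i => x i = y i)
  rw [card_univ, Fintype.card_fin] at this
  exact this

theorem card_good_le {h : ℕ} (hh : 0 < h) (Y : Finset (X n))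
    (hfar : ∀ y ∈ Y, ∀ y' ∈ Y, y ≠ y' → n ≤ h * hammingDist y y')
    (hk : 2 * (Y.card : ℝ) * Real.exp (-(k / h)) ≤ 1) :
    ((good k Y).card : ℝ) ≤ (2 * n) ^ k * Real.exp (-(Y.card / 2 ^ k / 2)) := by
  classical
  have hhR : (0 : ℝ) < h := by exact_mod_cast hh
  -- intersections
  have hg : ∀ y ∈ Y, ∀ y' ∈ Y, y ≠ y' → ((viol k y ∩ viol k y').card : ℝ) ≤
      (n : ℝ) ^ k * Real.exp (-(k / h)) := by
    intro y hy y' hy' hne
    rw [card_viol_inter]
    push_cast
    have h1 := card_agree y y'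
    have h2 := hfar y hy y' hy' hne
    set A := (univ.filter (fun i => y i = y' i)).card with hA
    have h3 : (A : ℝ) ≤ n * Real.exp (-(1 / h)) := by
      have h4 : (h : ℝ) * A + n ≤ h * n := by
        have : h * A + n ≤ h * n := by
          calc h * A + n ≤ h * A + h * hammingDist y y' := by omega
            _ = h * (A + hammingDist y y') := by ring
            _ = h * n := by rw [h1]
        exact_mod_cast this
      have h5 : 1 - 1 / (h : ℝ) ≤ Real.exp (-(1 / h)) := by
        have := Real.add_one_le_exp (-(1 / (h : ℝ)))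
        linarith
      have h6 : (A : ℝ) ≤ n * (1 - 1 / h) := by
        have : (A : ℝ) = h * A / h := by field_simp
        rw [this, div_le_iff₀ hhR]
        have : (n : ℝ) * (1 - 1 / h) * h = h * n - n := by field_simp
        rw [this]
        linarith
      exact h6.trans (mul_le_mul_of_nonneg_left h5 (by positivity))
    calc (A : ℝ) ^ k ≤ (n * Real.exp (-(1 / h))) ^ k := pow_le_pow_left₀ (by positivity) h3 k
      _ = (n : ℝ) ^ k * Real.exp (-(k / h)) := by
        rw [mul_pow, ← Real.exp_nat_mul]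
        ring_nf
  -- a natural bound
  set g : ℕ := ⌊(n : ℝ) ^ k * Real.exp (-(k / h))⌋₊ with hgdef
  have hbon := bonferroni (fun y : X n => viol k y) (a := n ^ k) (g := g)
    (fun y => card_viol y) Y (fun y hy y' hy' hne => Nat.le_floor (hg y hy y' hy' hne))
  have hcard : (good k Y).card + (Y.biUnion (viol k)).card = (2 * n) ^ k := by
    unfold good
    rw [Finset.card_sdiff_of_subset (subset_univ _), card_univ, card_clause]
    have := card_le_univ (Y.biUnion (viol k))
    rw [card_clause] at this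
    omega
  have hbonR : (Y.card : ℝ) * n ^ k ≤ ((Y.biUnion (viol k)).card : ℝ) + Y.card ^ 2 * g := by
    exact_mod_cast hbon
  have hcardR : ((good k Y).card : ℝ) + ((Y.biUnion (viol k)).card : ℝ) = (2 * n) ^ k := by
    exact_mod_cast hcard
  have hgR : (g : ℝ) ≤ (n : ℝ) ^ k * Real.exp (-(k / h)) := Nat.floor_le (by positivity)
  have h1 : (Y.card : ℝ) ^ 2 * g ≤ Y.card * n ^ k / 2 := by
    calc (Y.card : ℝ) ^ 2 * g ≤ Y.card ^ 2 * ((n : ℝ) ^ k * Real.exp (-(k / h))) :=
          mul_le_mul_of_nonneg_left hgR (by positivity)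
      _ = (Y.card * n ^ k / 2) * (2 * Y.card * Real.exp (-(k / h))) := by ring
      _ ≤ (Y.card * n ^ k / 2) * 1 := mul_le_mul_of_nonneg_left hk (by positivity)
      _ = Y.card * n ^ k / 2 := mul_one _
  have h2 : ((good k Y).card : ℝ) ≤ (2 * n) ^ k * (1 - Y.card / 2 ^ k / 2) := by
    have : (2 * (n : ℝ)) ^ k * (Y.card / 2 ^ k / 2) = Y.card * n ^ k / 2 := by
      rw [mul_pow]
      field_simp
    rw [mul_sub, mul_one, this]
    linarith
  refine h2.trans (mul_le_mul_of_nonneg_left ?_ (by positivity))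
  have := Real.add_one_le_exp (-((Y.card : ℝ) / 2 ^ k / 2))
  linarith

/-- the formulas satisfied by all elements of `Y` -/
theorem card_forms (m : ℕ) (Y : Finset (X n)) :
    ((Fintype.piFinset (fun _ : Fin m => good k Y)).card : ℝ) = ((good k Y).card : ℝ) ^ m := by
  rw [Fintype.card_piFinset, Finset.prod_const, card_univ, Fintype.card_fin]
  push_cast
  rfl

open Classical in
/-- the models -/
noncomputable def models {m : ℕ} (φ : Fin m → Clause k n) : Finset (X n) :=
  univ.filter (fun x => Sat φ x)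

theorem mem_models {m : ℕ} {φ : Fin m → Clause k n} {x : X n} : x ∈ models φ ↔ Sat φ x := by
  unfold models; simp

theorem sum_models (m : ℕ) :
    ∑ φ : Fin m → Clause k n, ((models φ).card : ℝ) =
      2 ^ n * ((2 * n : ℝ) ^ k - n ^ k) ^ m := by
  classical
  have h1 : ∀ x : X n, ((univ.filter (fun φ : Fin m → Clause k n => Sat φ x)).card : ℝ) =
      ((2 * n : ℝ) ^ k - n ^ k) ^ m := by
    intro x
    have h2 : univ.filter (fun φ : Fin m → Clause k n => Sat φ x) =
        Fintype.piFinset (fun _ : Fin m => good k {x}) := by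
      ext φ
      simp only [mem_filter, mem_univ, true_and, Fintype.mem_piFinset, mem_good,
        Finset.mem_singleton, forall_eq]
      rfl
    rw [h2, card_forms]
    congr 1
    have h3 : (good k ({x} : Finset (X n))).card + n ^ k = (2 * n) ^ k := by
      unfold good
      rw [Finset.singleton_biUnion, Finset.card_sdiff_of_subset (subset_univ _), card_univ,
        card_clause, card_viol]
      have := card_le_univ (viol k x)
      rw [card_clause, card_viol] at this
      omega
    have h4 : ((good k ({x} : Finset (X n))).card : ℝ) + n ^ k = (2 * n) ^ k := by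
      exact_mod_cast h3
    linarith
  calc ∑ φ : Fin m → Clause k n, ((models φ).card : ℝ)
      = ∑ φ : Fin m → Clause k n, ∑ x : X n, (if Sat φ x then (1 : ℝ) else 0) := by
        apply Finset.sum_congr rfl
        intro φ _
        unfold models
        rw [Finset.card_filter]
        push_cast
        apply Finset.sum_congr rfl
        intro x _
        split_ifs <;> rfl
    _ = ∑ x : X n, ∑ φ : Fin m → Clause k n, (if Sat φ x then (1 : ℝ) else 0) :=
        Finset.sum_comm
    _ = ∑ _x : X n, ((2 * n : ℝ) ^ k - n ^ k) ^ m := by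
        apply Finset.sum_congr rfl
        intro x _
        rw [← h1 x, Finset.card_filter]
        push_cast
        rfl
    _ = 2 ^ n * ((2 * n : ℝ) ^ k - n ^ k) ^ m := by
        rw [Finset.sum_const, card_univ, nsmul_eq_mul]
        simp

/-- there is no grid of models -/
def NoGrid {m : ℕ} (φ : Fin m → Clause k n) (𝒞 : Finset (X n → X n)) (t h : ℕ) : Prop :=
  ∀ S ⊆ 𝒞, ∀ V : Finset (X n), S.card = t → V.card = t →
    (∀ Γ ∈ S, ∀ Γ' ∈ S, ∀ u ∈ V, ∀ u' ∈ V, (Γ ≠ Γ' ∨ u ≠ u') →
      n ≤ h * hammingDist (Γ u) (Γ' u')) →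
    ∃ Γ ∈ S, ∃ u ∈ V, ¬ Sat φ (Γ u)

theorem one_sub_ge {x : ℝ} (h0 : 0 ≤ x) (h1 : x ≤ 1 / 2) : Real.exp (-(2 * x)) ≤ 1 - x := by
  have h2 := Real.add_one_le_exp (2 * x)
  rw [Real.exp_neg]
  rw [inv_le_comm₀ (Real.exp_pos _) (by linarith)]
  refine le_trans ?_ h2
  rw [inv_le_iff_one_le_mul₀ (by linarith)]
  nlinarith

theorem exists_formula {m t h L : ℕ} (hn : 1 < n) (hh : 0 < h) (hk1 : 1 ≤ k) (𝒞 : Finset (X n → X n))
    (h𝒞 : 𝒞.card ≤ 2 ^ L)
    (hk : 2 * ((t : ℝ) ^ 2) * Real.exp (-(k / h)) ≤ 1)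
    (hnum : (2 : ℝ) ^ ((L + n) * t) * Real.exp (-(t ^ 2 * (m / 2 ^ k) / 2)) ≤
      Real.exp (-(2 * (m / 2 ^ k))) / 2) :
    ∃ φ : Fin m → Clause k n, NoGrid φ 𝒞 t h ∧
      (2 : ℝ) ^ n * Real.exp (-(2 * (m / 2 ^ k))) / 2 ≤ (models φ).card := by
  classical
  by_contra hcon
  push Not at hcon
  set N0 : ℝ := ((2 * (n : ℝ)) ^ k) ^ m with hN0
  have hn0 : (0 : ℝ) < n := by
    have : 0 < n := by omega
    exact_mod_cast this
  have hN0pos : 0 < N0 := by positivity
  set I : Finset (Finset (X n → X n) × Finset (X n)) :=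
    ((𝒞.powersetCard t) ×ˢ ((univ : Finset (X n)).powersetCard t)).filter
      (fun q => ∀ Γ ∈ q.1, ∀ Γ' ∈ q.1, ∀ u ∈ q.2, ∀ u' ∈ q.2, (Γ ≠ Γ' ∨ u ≠ u') →
        n ≤ h * hammingDist (Γ u) (Γ' u')) with hI
  set bad : Finset (Fin m → Clause k n) := univ.filter (fun φ => ¬ NoGrid φ 𝒞 t h) with hbad
  set Yq : Finset (X n → X n) × Finset (X n) → Finset (X n) := fun q =>
    (q.1 ×ˢ q.2).image (fun p => p.1 p.2) with hYq
  have hbadsub : bad ⊆ I.biUnion (fun q => Fintype.piFinset (fun _ : Fin m => good k (Yq q))) := by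
    intro φ hφ
    have hφ' := (mem_filter.1 hφ).2
    unfold NoGrid at hφ'
    push Not at hφ'
    obtain ⟨S, hS, V, hSt, hVt, hfar, hsat⟩ := hφ'
    rw [mem_biUnion]
    refine ⟨(S, V), mem_filter.2 ⟨mem_product.2 ⟨mem_powersetCard.2 ⟨hS, hSt⟩,
      mem_powersetCard.2 ⟨subset_univ _, hVt⟩⟩, hfar⟩, ?_⟩
    rw [Fintype.mem_piFinset]
    intro j
    rw [mem_good]
    intro y hy
    obtain ⟨⟨Γ, u⟩, hp, rfl⟩ := mem_image.1 hy
    obtain ⟨h1, h2⟩ := mem_product.1 hp
    exact hsat Γ h1 u h2 j
  have hYcard : ∀ q ∈ I, (Yq q).card = t ^ 2 ∧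
      ∀ y ∈ Yq q, ∀ y' ∈ Yq q, y ≠ y' → n ≤ h * hammingDist y y' := by
    intro q hq
    obtain ⟨hq1, hq2⟩ := mem_filter.1 hq
    obtain ⟨hq3, hq4⟩ := mem_product.1 hq1
    constructor
    · rw [hYq]
      simp only
      rw [card_image_of_injOn, card_product, (mem_powersetCard.1 hq3).2,
        (mem_powersetCard.1 hq4).2, pow_two]
      rintro ⟨Γ, u⟩ hp ⟨Γ', u'⟩ hp' heq
      simp only [coe_product, Set.mem_prod, mem_coe] at hp hp'
      by_contra hne
      have hne' : Γ ≠ Γ' ∨ u ≠ u' := by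
        by_contra h'
        push Not at h'
        exact hne (Prod.ext h'.1 h'.2)
      have := hq2 Γ hp.1 Γ' hp'.1 u hp.2 u' hp'.2 hne'
      simp only at heq
      rw [heq, hammingDist_self] at this
      omega
    · intro y hy y' hy' hne
      obtain ⟨⟨Γ, u⟩, hp, rfl⟩ := mem_image.1 hy
      obtain ⟨⟨Γ', u'⟩, hp', rfl⟩ := mem_image.1 hy'
      obtain ⟨h1, h2⟩ := mem_product.1 hp
      obtain ⟨h3, h4⟩ := mem_product.1 hp'
      apply hq2 Γ h1 Γ' h3 u h2 u' h4
      by_contra h'
      push Not at h'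
      simp only at h' hne
      exact hne (by rw [h'.1, h'.2])
  have hIcard : (I.card : ℝ) ≤ 2 ^ ((L + n) * t) := by
    have h1 : I.card ≤ 2 ^ ((L + n) * t) := by
      refine (card_filter_le _ _).trans ?_
      rw [card_product, card_powersetCard, card_powersetCard]
      have h2 : 𝒞.card.choose t ≤ (2 ^ L) ^ t :=
        (Nat.choose_le_pow _ _).trans (Nat.pow_le_pow_left h𝒞 t)
      have h3 : (univ : Finset (X n)).card.choose t ≤ (2 ^ n) ^ t := by
        refine (Nat.choose_le_pow _ _).trans (Nat.pow_le_pow_left ?_ t)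
        rw [card_univ]
        simp
      calc 𝒞.card.choose t * (univ : Finset (X n)).card.choose t
          ≤ (2 ^ L) ^ t * (2 ^ n) ^ t := Nat.mul_le_mul h2 h3
        _ = 2 ^ ((L + n) * t) := by
            rw [← mul_pow, ← pow_add, ← pow_mul]
    exact_mod_cast h1
  have hbadcard : (bad.card : ℝ) ≤ N0 * (Real.exp (-(2 * (m / 2 ^ k))) / 2) := by
    have h1 : (bad.card : ℝ) ≤ ∑ q ∈ I,
        ((Fintype.piFinset (fun _ : Fin m => good k (Yq q))).card : ℝ) := by
      exact_mod_cast (card_le_card hbadsub).trans card_biUnion_le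
    refine h1.trans ?_
    have h2 : ∀ q ∈ I, ((Fintype.piFinset (fun _ : Fin m => good k (Yq q))).card : ℝ) ≤
        N0 * Real.exp (-(t ^ 2 * (m / 2 ^ k) / 2)) := by
      intro q hq
      obtain ⟨h3, h4⟩ := hYcard q hq
      have h3R : ((Yq q).card : ℝ) = (t : ℝ) ^ 2 := by exact_mod_cast h3
      rw [card_forms]
      have h5 := card_good_le (k := k) hh (Yq q) h4 (by rw [h3R]; exact hk)
      rw [h3R] at h5
      calc ((good k (Yq q)).card : ℝ) ^ m
          ≤ ((2 * n) ^ k * Real.exp (-((t : ℝ) ^ 2 / 2 ^ k / 2))) ^ m :=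
            pow_le_pow_left₀ (by positivity) h5 m
        _ = N0 * Real.exp (-(t ^ 2 * (m / 2 ^ k) / 2)) := by
            rw [mul_pow, ← Real.exp_nat_mul, hN0]
            congr 2
            ring
    calc ∑ q ∈ I, ((Fintype.piFinset (fun _ : Fin m => good k (Yq q))).card : ℝ)
        ≤ ∑ _q ∈ I, N0 * Real.exp (-(t ^ 2 * (m / 2 ^ k) / 2)) := Finset.sum_le_sum h2
      _ = I.card * (N0 * Real.exp (-(t ^ 2 * (m / 2 ^ k) / 2))) := by
          rw [Finset.sum_const, nsmul_eq_mul]
      _ ≤ 2 ^ ((L + n) * t) * (N0 * Real.exp (-(t ^ 2 * (m / 2 ^ k) / 2))) :=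
          mul_le_mul_of_nonneg_right hIcard (by positivity)
      _ = N0 * (2 ^ ((L + n) * t) * Real.exp (-(t ^ 2 * (m / 2 ^ k) / 2))) := by ring
      _ ≤ N0 * (Real.exp (-(2 * (m / 2 ^ k))) / 2) :=
          mul_le_mul_of_nonneg_left hnum hN0pos.le
  -- the average
  have hsum := sum_models (k := k) (n := n) m
  have hlow : 2 ^ n * (N0 * Real.exp (-(2 * (m / 2 ^ k)))) ≤
      2 ^ n * ((2 * n : ℝ) ^ k - n ^ k) ^ m := by
    apply mul_le_mul_of_nonneg_left _ (by positivity)
    have h1 : (2 * n : ℝ) ^ k - n ^ k = (2 * n) ^ k * (1 - 1 / 2 ^ k) := by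
      rw [mul_pow]
      field_simp
    rw [h1, mul_pow, ← hN0]
    apply mul_le_mul_of_nonneg_left _ hN0pos.le
    have h2 : Real.exp (-(2 * (1 / 2 ^ k))) ≤ 1 - 1 / (2 : ℝ) ^ k := by
      apply one_sub_ge (by positivity)
      apply one_div_le_one_div_of_le (by norm_num)
      calc (2 : ℝ) = 2 ^ 1 := by norm_num
        _ ≤ 2 ^ k := pow_le_pow_right₀ (by norm_num) hk1
    calc Real.exp (-(2 * (m / 2 ^ k))) = Real.exp (-(2 * (1 / 2 ^ k))) ^ m := by
          rw [← Real.exp_nat_mul]; ring_nf
      _ ≤ (1 - 1 / 2 ^ k) ^ m := pow_le_pow_left₀ (Real.exp_nonneg _) h2 m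
  have hcardall : ((univ : Finset (Fin m → Clause k n)).card : ℝ) = N0 := by
    rw [card_univ, Fintype.card_fun, card_clause, Fintype.card_fin, hN0]
    push_cast
    rfl
  have hupper : ∑ φ : Fin m → Clause k n, ((models φ).card : ℝ) <
      N0 * (2 ^ n * Real.exp (-(2 * (m / 2 ^ k))) / 2) +
        N0 * (Real.exp (-(2 * (m / 2 ^ k))) / 2) * 2 ^ n := by
    have h1 : ∀ φ : Fin m → Clause k n, ((models φ).card : ℝ) <
        2 ^ n * Real.exp (-(2 * (m / 2 ^ k))) / 2 + (if φ ∈ bad then (2 : ℝ) ^ n else 0) := by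
      intro φ
      by_cases hφ : φ ∈ bad
      · rw [if_pos hφ]
        have h2 : ((models φ).card : ℝ) ≤ 2 ^ n := by
          have := card_le_univ (models φ)
          have h3 : Fintype.card (X n) = 2 ^ n := by simp
          rw [h3] at this
          exact_mod_cast this
        have h4 : 0 < 2 ^ n * Real.exp (-(2 * ((m : ℝ) / 2 ^ k))) / 2 := by positivity
        linarith
      · rw [if_neg hφ, add_zero]
        apply hcon φ
        by_contra h'
        exact hφ (mem_filter.2 ⟨mem_univ _, h'⟩)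
    have hne : (univ : Finset (Fin m → Clause k n)).Nonempty := by
      rw [← Finset.card_pos]
      have : (0 : ℝ) < ((univ : Finset (Fin m → Clause k n)).card : ℝ) := by
        rw [hcardall]; exact hN0pos
      exact_mod_cast this
    calc ∑ φ : Fin m → Clause k n, ((models φ).card : ℝ)
        < ∑ φ : Fin m → Clause k n, (2 ^ n * Real.exp (-(2 * (m / 2 ^ k))) / 2 +
            (if φ ∈ bad then (2 : ℝ) ^ n else 0)) :=
          Finset.sum_lt_sum_of_nonempty hne (fun φ _ => h1 φ)
      _ = N0 * (2 ^ n * Real.exp (-(2 * (m / 2 ^ k))) / 2) + bad.card * 2 ^ n := by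
          rw [Finset.sum_add_distrib, Finset.sum_const, nsmul_eq_mul, hcardall,
            Finset.sum_ite_mem, Finset.univ_inter, Finset.sum_const, nsmul_eq_mul]
      _ ≤ _ := by
          have := mul_le_mul_of_nonneg_right hbadcard (show (0 : ℝ) ≤ 2 ^ n by positivity)
          linarith
  rw [hsum] at hupper
  have : N0 * (2 ^ n * Real.exp (-(2 * (m / 2 ^ k))) / 2) +
        N0 * (Real.exp (-(2 * (m / 2 ^ k))) / 2) * 2 ^ n =
      2 ^ n * (N0 * Real.exp (-(2 * ((m : ℝ) / 2 ^ k)))) := by ring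
  rw [this] at hupper
  linarith

end Pool.Agent.Helper56.Rep
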