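import Pool.Agent.Helper56.Rep.Bound

/-!
Choice of the parameters.
-/

namespace Pool.Agent.Helper56.Rep

open Finset

theorem ball_exp {n h : ℕ} (hh : 0 < h) :
    (Iso.ball n (n / h) : ℝ) ≤ Real.exp (n * ((1 + Real.log h) / h)) := by
  have hh1 : (1 : ℝ) ≤ h := by exact_mod_cast hh
  have hh0 : (0 : ℝ) < h := by linarith
  have h1 := Iso.ball_le (n := n) (M := n / h) (y := 1 / (h : ℝ)) (by positivity)
    (by rw [div_le_one hh0]; exact hh1)
  have h2 : (1 + 1 / (h : ℝ)) ^ n ≤ Real.exp (n / h) := by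
    have h3 : 1 + 1 / (h : ℝ) ≤ Real.exp (1 / h) := by
      have := Real.add_one_le_exp (1 / (h : ℝ))
      linarith
    calc (1 + 1 / (h : ℝ)) ^ n ≤ Real.exp (1 / h) ^ n := pow_le_pow_left₀ (by positivity) h3 n
      _ = Real.exp (n / h) := by rw [← Real.exp_nat_mul]; ring_nf
  have h3 : (h : ℝ) ^ (n / h) ≤ Real.exp (n / h * Real.log h) := by
    have h4 : (h : ℝ) ^ (n / h) = Real.exp (((n / h : ℕ) : ℝ) * Real.log h) := by
      rw [Real.exp_nat_mul, Real.exp_log hh0]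
    rw [h4]
    apply Real.exp_le_exp.2
    apply mul_le_mul_of_nonneg_right _ (Real.log_nonneg hh1)
    exact Nat.cast_div_le
  have h5 : (Iso.ball n (n / h) : ℝ) = (Iso.ball n (n / h) : ℝ) * (1 / h) ^ (n / h) *
      (h : ℝ) ^ (n / h) := by
    rw [mul_assoc, ← mul_pow]
    have : (1 / (h : ℝ)) * h = 1 := by field_simp
    rw [this, one_pow, mul_one]
  rw [h5]
  calc (Iso.ball n (n / h) : ℝ) * (1 / h) ^ (n / h) * (h : ℝ) ^ (n / h)
      ≤ Real.exp (n / h) * Real.exp (n / h * Real.log h) :=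
        mul_le_mul (h1.trans h2) h3 (by positivity) (Real.exp_nonneg _)
    _ = Real.exp (n * ((1 + Real.log h) / h)) := by
        rw [← Real.exp_add]
        congr 1
        field_simp

theorem exists_h {γ : ℝ} (hγ : 0 < γ) : ∃ h : ℕ, 0 < h ∧ (1 + Real.log h) / h ≤ γ := by
  obtain ⟨r, hr⟩ := exists_nat_gt (3 / γ)
  have hr0 : (0 : ℝ) < r := lt_trans (by positivity) hr
  have hrn : 0 < r := by exact_mod_cast hr0
  refine ⟨r ^ 2, by positivity, ?_⟩
  push_cast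
  rw [Real.log_pow]
  push_cast
  have h1 := Real.log_le_sub_one_of_pos hr0
  have h2 : (1 + 2 * Real.log r) / (r : ℝ) ^ 2 ≤ 3 / r := by
    rw [div_le_div_iff₀ (by positivity) hr0]
    have h3 : 1 + 2 * Real.log r ≤ 3 * r := by linarith
    calc (1 + 2 * Real.log r) * r ≤ (3 * r) * r := mul_le_mul_of_nonneg_right h3 hr0.le
      _ = 3 * r ^ 2 := by ring
  refine h2.trans ?_
  rw [div_le_iff₀ hr0]
  rw [div_lt_iff₀ hγ] at hr
  linarith

theorem clog_bounds {x : ℕ} (hx : 2 ≤ x) : x ≤ 2 ^ Nat.clog 2 x ∧ 2 ^ Nat.clog 2 x ≤ 2 * x ∧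
    1 ≤ Nat.clog 2 x := by
  have h1 : x ≤ 2 ^ Nat.clog 2 x := Nat.le_pow_clog (by norm_num) x
  have h3 : 1 ≤ Nat.clog 2 x := Nat.clog_pos (by norm_num) hx
  refine ⟨h1, ?_, h3⟩
  have h2 : 2 ^ (Nat.clog 2 x).pred < x := Nat.pow_pred_clog_lt_self (by norm_num) (by omega)
  obtain ⟨c, hc⟩ : ∃ c, Nat.clog 2 x = c + 1 := ⟨Nat.clog 2 x - 1, by omega⟩
  rw [hc] at h2 ⊢
  rw [pow_succ]
  simp only [Nat.pred_succ] at h2
  omega

/-- The final inequality. -/
theorem finish {n k m : ℕ} {φ : Fin m → Clause k n} {Λ : Set (X n → X n)} {D W s h t K : ℕ}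
    {M : ℕ → Finset (X n)} {𝒞 : Finset (X n → X n)} (hn : 0 < n) (hh : 0 < h)
    (h𝒞 : ∀ Γ ∈ comps Λ D, Γ ∈ 𝒞) (hNG : NoGrid φ 𝒞 (t + 1) h)
    (hK : 4 * (t + 1) ^ 3 * Iso.ball n (n / h) ≤ K)
    (hP : IsProgram Λ D W s M) {v : ℕ} (hv : v < s) {g : ℝ} (hg : 0 ≤ g)
    (hg2 : 16384 ≤ Real.exp g) (hKexp : (K : ℝ) ≤ Real.exp g) {A : ℕ} (hA : 8 * (t + 1) ≤ A) :
    ((M v).card : ℝ) ≤ Real.exp (4 * g) * ((W + 1) * s) + A * (M v \ models φ).card := by
  have hsR : (1 : ℝ) ≤ s := by exact_mod_cast (by omega : 1 ≤ s)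
  have hW0 : (0 : ℝ) ≤ W := by positivity
  by_cases hbigv : K < (M v).card
  · have hfin := bound (φ := φ) (Λ := Λ) (D := D) (W := W) (s := s) (h := h) (t := t) (K := K)
      (M := M) (𝒞 := 𝒞) hn hh h𝒞 hNG hK hP hv hbigv
    have e1 : ((M v).card : ℝ) ≤ s * (K * (2 * K ^ 2 + W)) +
        (8 * (t + 1) : ℕ) * (M v \ models φ).card := by exact_mod_cast hfin
    have e2 : (K : ℝ) ^ 3 ≤ Real.exp g ^ 3 := pow_le_pow_left₀ (by positivity) hKexp 3
    have e3 : Real.exp g ^ 3 = Real.exp (3 * g) := by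
      rw [← Real.exp_nat_mul]
      norm_num
    rw [e3] at e2
    have e4 : (K : ℝ) * (2 * K ^ 2) ≤ Real.exp (4 * g) := by
      have e5 : Real.exp (4 * g) = Real.exp (3 * g) * Real.exp g := by
        rw [← Real.exp_add]; ring_nf
      rw [e5]
      calc (K : ℝ) * (2 * K ^ 2) = K ^ 3 * 2 := by ring
        _ ≤ Real.exp (3 * g) * 2 := mul_le_mul_of_nonneg_right e2 (by norm_num)
        _ ≤ Real.exp (3 * g) * Real.exp g :=
            mul_le_mul_of_nonneg_left (by linarith) (Real.exp_nonneg _)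
    have e6 : (K : ℝ) * W ≤ Real.exp (4 * g) * W := by
      apply mul_le_mul_of_nonneg_right _ hW0
      exact hKexp.trans (Real.exp_le_exp.2 (by linarith))
    have e7 : ((8 * (t + 1) : ℕ) : ℝ) ≤ A := by exact_mod_cast hA
    calc ((M v).card : ℝ) ≤ s * (K * (2 * K ^ 2 + W)) +
          (8 * (t + 1) : ℕ) * (M v \ models φ).card := e1
      _ = s * (K * (2 * K ^ 2) + K * W) +
          (8 * (t + 1) : ℕ) * (M v \ models φ).card := by ring
      _ ≤ s * (Real.exp (4 * g) + Real.exp (4 * g) * W) + A * (M v \ models φ).card := by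
          apply add_le_add
          · exact mul_le_mul_of_nonneg_left (add_le_add e4 e6) (by positivity)
          · exact mul_le_mul_of_nonneg_right e7 (by positivity)
      _ = _ := by ring
  · push Not at hbigv
    have e1 : ((M v).card : ℝ) ≤ K := by exact_mod_cast hbigv
    have e2 : Real.exp g ≤ Real.exp (4 * g) := Real.exp_le_exp.2 (by linarith)
    have e5 : (1 : ℝ) ≤ (W + 1) * s := by nlinarith
    have e3 : Real.exp (4 * g) * 1 ≤ Real.exp (4 * g) * ((W + 1) * s) :=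
      mul_le_mul_of_nonneg_left e5 (Real.exp_nonneg _)
    have e4 : (0 : ℝ) ≤ A * (M v \ models φ).card := by positivity
    linarith

theorem finish_exact {a g s : ℝ} (hg2 : 16384 ≤ Real.exp g) (hg : 0 ≤ g)
    (h : Real.exp (a - g) / 2 ≤ Real.exp (4 * g) * s) : Real.exp (a - 8 * g) ≤ s := by
  have e2 : Real.exp (a - g) = Real.exp (a - 8 * g) * Real.exp (4 * g) * Real.exp (3 * g) := by
    rw [← Real.exp_add, ← Real.exp_add]
    ring_nf
  rw [e2] at h
  have e3 : 2 ≤ Real.exp (3 * g) := by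
    refine le_trans (by norm_num) (hg2.trans (Real.exp_le_exp.2 ?_))
    linarith
  have e6 : Real.exp (a - 8 * g) * Real.exp (4 * g) * 2 ≤
      Real.exp (a - 8 * g) * Real.exp (4 * g) * Real.exp (3 * g) :=
    mul_le_mul_of_nonneg_left e3 (by positivity)
  have e7 : Real.exp (a - 8 * g) * Real.exp (4 * g) ≤ s * Real.exp (4 * g) := by linarith
  exact le_of_mul_le_mul_right e7 (Real.exp_pos _)

/-- The theorem for a small `ε`. -/
theorem main_small (ε : ℝ) (hε : 0 < ε) (hε1 : ε ≤ 1) :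
    ∃ (c : ℝ) (b n0 : ℕ), 0 < c ∧ ∀ n ≥ n0, ∀ N : ℕ, (N : ℝ) ≤ 2 ^ (c * n) →
      ∀ (Λ : Set (X n → X n)) (D : ℕ), (comps Λ D).ncard ≤ 2 ^ (N * n) →
      ∃ (m k : ℕ) (φ : Fin m → Clause k n),
        2 ^ k ≤ (b * (N + 1)) ^ b ∧ m ≤ (b * (N + 1)) ^ b * n ∧
        (2 : ℝ) ^ ((1 - ε) * n) ≤ (models φ).card ∧
        ∀ (s W : ℕ) (M : ℕ → Finset (X n)), IsProgram Λ D W s M → ∀ v < s,
          (((M v).card : ℝ) ≤ (2 : ℝ) ^ (ε * n) * ((W + 1) * s) +
            ((b * (N + 1)) ^ b : ℕ) * (M v \ models φ).card) ∧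
          ((∀ x, x ∈ M v ↔ Sat φ x) → (2 : ℝ) ^ ((1 - ε) * n) ≤ (W + 1) * s) := by
  obtain ⟨lam, hlam⟩ : ∃ lam, lam = Real.log 2 := ⟨_, rfl⟩
  have hl1 : 0.69 < lam := by rw [hlam]; have := Real.log_two_gt_d9; linarith
  have hl2 : lam < 0.7 := by rw [hlam]; have := Real.log_two_lt_d9; linarith
  have hexplam : Real.exp lam = 2 := by rw [hlam]; exact Real.exp_log (by norm_num)
  have hrpow : ∀ y : ℝ, (2 : ℝ) ^ y = Real.exp (lam * y) := by
    intro y
    rw [Real.rpow_def_of_pos (by norm_num), hlam]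
  have hpow : ∀ j : ℕ, (2 : ℝ) ^ j = Real.exp (lam * j) := by
    intro j
    rw [← Real.rpow_natCast, hrpow]
  obtain ⟨γ, hγ⟩ : ∃ γ, γ = ε * lam / 8 := ⟨_, rfl⟩
  have hγ0 : 0 < γ := by rw [hγ]; positivity
  have hγ1 : 8 * γ ≤ lam := by rw [hγ]; nlinarith
  obtain ⟨h, hh, hhγ⟩ := exists_h (show (0 : ℝ) < γ / 4 by positivity)
  obtain ⟨q, hq⟩ := exists_nat_gt (2 / γ)
  have hq0 : (0 : ℝ) < q := lt_trans (by positivity) hq
  have hqn : 0 < q := by exact_mod_cast hq0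
  have hq2 : 2 / (q : ℝ) ≤ γ := by
    rw [div_le_iff₀ hq0]
    rw [div_lt_iff₀ hγ0] at hq
    linarith
  obtain ⟨c, hc⟩ : ∃ c, c = γ / (12 * lam) := ⟨_, rfl⟩
  have hc0 : 0 < c := by rw [hc]; positivity
  have hcl : lam * c = γ / 12 := by rw [hc]; field_simp
  obtain ⟨n1, hn1⟩ := exists_nat_gt (2 / γ * (64 * (8 * q) ^ 3))
  refine ⟨c, 64 * q + 2 * h, n1 + 2 * q + 1, hc0, fun n hn N hN Λ D hΛ => ?_⟩
  have hnn1 : (n1 : ℝ) ≤ n := by exact_mod_cast (by omega : n1 ≤ n)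
  have hn2q : 2 * q ≤ n := by omega
  have hn0 : 0 < n := by omega
  have hn1' : 1 < n := by omega
  have hnR : (1 : ℝ) ≤ n := by exact_mod_cast hn0
  have hq1R : (1 : ℝ) ≤ q := by exact_mod_cast hqn
  -- exp (γ n / 2) is large
  have hbig : 64 * (8 * (q : ℝ)) ^ 3 ≤ Real.exp (γ * n / 2) := by
    have h1 : 2 / γ * (64 * (8 * (q : ℝ)) ^ 3) ≤ n := hn1.le.trans hnn1
    have h2 : 64 * (8 * (q : ℝ)) ^ 3 ≤ γ * n / 2 := by
      have : 64 * (8 * (q : ℝ)) ^ 3 = (γ / 2) * (2 / γ * (64 * (8 * (q : ℝ)) ^ 3)) := by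
        field_simp
      rw [this]
      calc (γ / 2) * (2 / γ * (64 * (8 * (q : ℝ)) ^ 3)) ≤ (γ / 2) * n :=
            mul_le_mul_of_nonneg_left h1 (by positivity)
        _ = γ * n / 2 := by ring
    have := Real.add_one_le_exp (γ * n / 2)
    linarith
  have hbig2 : (16384 : ℝ) ≤ Real.exp (γ * n / 2) := by
    refine le_trans ?_ hbig
    have : (1 : ℝ) ≤ (q : ℝ) ^ 3 := one_le_pow₀ hq1R
    calc (16384 : ℝ) ≤ 64 * 8 ^ 3 * 1 := by norm_num
      _ ≤ 64 * 8 ^ 3 * (q : ℝ) ^ 3 := mul_le_mul_of_nonneg_left this (by norm_num)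
      _ = 64 * (8 * (q : ℝ)) ^ 3 := by ring
  -- the parameters
  obtain ⟨t, ht⟩ : ∃ t, t + 1 = 8 * q * (N + 1) := ⟨8 * q * (N + 1) - 1, by
    have : 0 < 8 * q * (N + 1) := by positivity
    omega⟩
  obtain ⟨n', hn'⟩ : ∃ n', n' = n / q := ⟨_, rfl⟩
  have hn'1 : n' ≤ n := by rw [hn']; exact Nat.div_le_self _ _
  have hn'2 : (n' : ℝ) ≤ n / q := by rw [hn']; exact Nat.cast_div_le
  have hn'3 : n ≤ 2 * q * n' := by
    have h1 := Nat.lt_mul_div_succ n hqn
    rw [← hn'] at h1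
    have h2 : 1 ≤ n' := by
      rw [hn', Nat.le_div_iff_mul_le hqn]
      omega
    have h3 : q * 1 ≤ q * n' := Nat.mul_le_mul_left q h2
    have h4 : q * (n' + 1) = q * n' + q * 1 := by ring
    have h5 : 2 * q * n' = q * n' + q * n' := by ring
    omega
  obtain ⟨cl, hcl'⟩ : ∃ cl, cl = Nat.clog 2 (2 * (t + 1)) := ⟨_, rfl⟩
  obtain ⟨hcl1, hcl2, hcl3⟩ := clog_bounds (x := 2 * (t + 1)) (by omega)
  rw [← hcl'] at hcl1 hcl2 hcl3
  obtain ⟨k, hk⟩ : ∃ k, k = 2 * h * cl := ⟨_, rfl⟩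
  have hk1 : 1 ≤ k := by
    rw [hk]
    have : 0 < 2 * h * cl := by positivity
    omega
  obtain ⟨m, hm⟩ : ∃ m, m = 2 ^ k * n' := ⟨_, rfl⟩
  have hmk : (m : ℝ) / 2 ^ k = n' := by
    rw [hm]
    push_cast
    field_simp
  -- the width
  have h2k : 2 ^ k ≤ ((64 * q + 2 * h) * (N + 1)) ^ (64 * q + 2 * h) := by
    calc 2 ^ k = (2 ^ cl) ^ (2 * h) := by rw [← pow_mul, hk]; ring_nf
      _ ≤ (2 * (2 * (t + 1))) ^ (2 * h) := Nat.pow_le_pow_left hcl2 _
      _ = (32 * q * (N + 1)) ^ (2 * h) := by rw [ht]; ring_nf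
      _ ≤ ((64 * q + 2 * h) * (N + 1)) ^ (2 * h) :=
          Nat.pow_le_pow_left (Nat.mul_le_mul_right _ (by omega)) _
      _ ≤ ((64 * q + 2 * h) * (N + 1)) ^ (64 * q + 2 * h) :=
          Nat.pow_le_pow_right (by positivity) (by omega)
  -- the set of contexts
  obtain ⟨𝒞, h𝒞⟩ : ∃ 𝒞 : Finset (X n → X n), (𝒞 : Set (X n → X n)) = comps Λ D :=
    ⟨(Set.toFinite (comps Λ D)).toFinset, Set.Finite.coe_toFinset _⟩
  have h𝒞card : 𝒞.card ≤ 2 ^ (N * n) := by
    rw [← h𝒞, Set.ncard_coe_finset] at hΛ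
    exact hΛ
  have hkexp : 2 * (((t + 1 : ℕ) : ℝ) ^ 2) * Real.exp (-(k / h)) ≤ 1 := by
    have hhR : (0 : ℝ) < h := by exact_mod_cast hh
    have e1 : (k : ℝ) / h = 2 * cl := by
      rw [hk]
      push_cast
      field_simp
    rw [e1]
    have e2 : (2 * ((t + 1 : ℕ) : ℝ)) ^ 2 ≤ Real.exp (2 * cl) := by
      have e3 : ((2 * (t + 1) : ℕ) : ℝ) ≤ ((2 ^ cl : ℕ) : ℝ) := by exact_mod_cast hcl1
      push_cast at e3
      have e4 : (2 : ℝ) ^ cl ≤ Real.exp cl := by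
        rw [hpow]
        apply Real.exp_le_exp.2
        have : (0 : ℝ) ≤ cl := by positivity
        nlinarith
      push_cast
      calc (2 * ((t : ℝ) + 1)) ^ 2 ≤ (Real.exp cl) ^ 2 :=
            pow_le_pow_left₀ (by positivity) (e3.trans e4) 2
        _ = Real.exp (2 * cl) := by rw [← Real.exp_nat_mul]; norm_num
    rw [Real.exp_neg, ← div_eq_mul_inv, div_le_one (Real.exp_pos _)]
    refine le_trans ?_ e2
    have : (0 : ℝ) ≤ ((t + 1 : ℕ) : ℝ) ^ 2 := by positivity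
    linarith [mul_pow (2 : ℝ) ((t + 1 : ℕ) : ℝ) 2]
  have hnum : (2 : ℝ) ^ ((N * n + n) * (t + 1)) *
      Real.exp (-(((t + 1 : ℕ) : ℝ) ^ 2 * ((m : ℝ) / 2 ^ k) / 2)) ≤
      Real.exp (-(2 * ((m : ℝ) / 2 ^ k))) / 2 := by
    rw [hmk, hpow]
    have e1 : Real.exp (-(2 * (n' : ℝ))) / 2 = Real.exp (-(2 * (n' : ℝ)) - lam) := by
      rw [Real.exp_sub, hexplam]
    rw [e1, ← Real.exp_add]
    apply Real.exp_le_exp.2
    have htR : ((t + 1 : ℕ) : ℝ) = 8 * q * (N + 1) := by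
      rw [ht]; push_cast; ring
    have hn'3R : (n : ℝ) ≤ 2 * q * n' := by exact_mod_cast hn'3
    have hn'1R : (n' : ℝ) ≤ n := by exact_mod_cast hn'1
    have hNR : (0 : ℝ) ≤ N := by positivity
    set τ : ℝ := ((t + 1 : ℕ) : ℝ) with hτ
    have e2 : 2 * ((N + 1 : ℝ) * n * τ) ≤ τ ^ 2 * n' / 2 := by
      have : τ ^ 2 * n' / 2 = 2 * ((N + 1 : ℝ) * (2 * q * n') * τ) := by
        rw [pow_two]
        nth_rewrite 1 [htR]
        ring
      rw [this]
      have h9 : (N + 1 : ℝ) * n * τ ≤ (N + 1 : ℝ) * (2 * q * n') * τ := by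
        apply mul_le_mul_of_nonneg_right _ (by rw [hτ]; positivity)
        exact mul_le_mul_of_nonneg_left hn'3R (by positivity)
      linarith
    have e3 : (((N * n + n) * (t + 1) : ℕ) : ℝ) = (N + 1 : ℝ) * n * τ := by
      rw [hτ]; push_cast; ring
    rw [e3]
    have e4 : 8 * (n : ℝ) ≤ (N + 1 : ℝ) * n * τ := by
      have e5 : (8 : ℝ) ≤ τ := by
        rw [htR]
        nlinarith
      have e6 : (1 : ℝ) ≤ N + 1 := by linarith
      calc 8 * (n : ℝ) = 1 * n * 8 := by ring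
        _ ≤ (N + 1 : ℝ) * n * τ := by
            apply mul_le_mul _ e5 (by norm_num) (by positivity)
            exact mul_le_mul_of_nonneg_right e6 (by positivity)
    nlinarith
  obtain ⟨φ, hNG, hmod⟩ := exists_formula (n := n) (k := k) (m := m) (t := t + 1) (h := h)
    (L := N * n) hn1' hh hk1 𝒞 h𝒞card hkexp hnum
  have hγn : 16384 ≤ Real.exp (γ * n) := by
    refine hbig2.trans (Real.exp_le_exp.2 ?_)
    have : 0 ≤ γ * n := by positivity
    linarith
  have hmod2 : Real.exp (lam * n - γ * n) / 2 ≤ (models φ).card := by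
    refine le_trans ?_ hmod
    rw [hmk, hpow, ← Real.exp_add]
    apply div_le_div_of_nonneg_right _ (by norm_num)
    apply Real.exp_le_exp.2
    have : 2 * (n' : ℝ) ≤ γ * n := by
      calc 2 * (n' : ℝ) ≤ 2 * (n / q) := by linarith
        _ = (2 / q) * n := by ring
        _ ≤ γ * n := mul_le_mul_of_nonneg_right hq2 (by positivity)
    linarith
  have htarget : (2 : ℝ) ^ ((1 - ε) * n) = Real.exp (lam * n - 8 * γ * n) := by
    rw [hrpow]
    congr 1
    rw [hγ]; ring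
  have htarget2 : (2 : ℝ) ^ (ε * n) = Real.exp (8 * γ * n) := by
    rw [hrpow]
    congr 1
    rw [hγ]; ring
  refine ⟨m, k, φ, h2k, ?_, ?_, ?_⟩
  · rw [hm]
    exact Nat.mul_le_mul h2k hn'1
  · rw [htarget]
    refine le_trans ?_ hmod2
    have e1 : Real.exp (lam * n - γ * n) = Real.exp (lam * n - 8 * γ * n) *
        Real.exp (7 * γ * n) := by
      rw [← Real.exp_add]; ring_nf
    rw [e1]
    have e2 : 2 ≤ Real.exp (7 * γ * n) := by
      refine le_trans (by norm_num) (hγn.trans (Real.exp_le_exp.2 ?_))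
      have h0 : 0 ≤ γ * n := by positivity
      have : 7 * γ * n = 7 * (γ * n) := by ring
      rw [this]
      linarith
    have e3 : 0 < Real.exp (lam * n - 8 * γ * n) := Real.exp_pos _
    rw [le_div_iff₀ (by norm_num)]
    exact mul_le_mul_of_nonneg_left e2 e3.le
  intro s W M hP v hv
  obtain ⟨K, hK⟩ : ∃ K, K = 4 * (t + 1) ^ 3 * Iso.ball n (n / h) := ⟨_, rfl⟩
  have hKexp : (K : ℝ) ≤ Real.exp (γ * n) := by
    have hhalf : Real.exp (γ * n) = Real.exp (γ * n / 2) * Real.exp (γ * n / 2) := by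
      rw [← Real.exp_add]; ring_nf
    have e2 : (4 * (t + 1) ^ 3 * Iso.ball n (n / h) : ℝ) ≤
        32 * (8 * q) ^ 3 * Real.exp (γ * n / 2) := by
      have hNexp : (N : ℝ) + 1 ≤ 2 * Real.exp (γ * n / 12) := by
        have h8 : (N : ℝ) ≤ Real.exp (γ * n / 12) := by
          refine hN.trans (le_of_eq ?_)
          rw [hrpow, ← mul_assoc, hcl]
          ring_nf
        have h9 : 1 ≤ Real.exp (γ * n / 12) := by
          rw [← Real.exp_zero]
          apply Real.exp_le_exp.2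
          positivity
        linarith
      have h10 : ((t : ℝ) + 1) = 8 * q * (N + 1) := by
        have : ((t + 1 : ℕ) : ℝ) = ((8 * q * (N + 1) : ℕ) : ℝ) := by rw [ht]
        push_cast at this
        exact this
      have h11 : ((t : ℝ) + 1) ^ 3 ≤ 8 * (8 * q) ^ 3 * Real.exp (γ * n / 4) := by
        rw [h10]
        calc (8 * q * ((N : ℝ) + 1)) ^ 3 ≤ (8 * q * (2 * Real.exp (γ * n / 12))) ^ 3 := by
              apply pow_le_pow_left₀ (by positivity)
              exact mul_le_mul_of_nonneg_left hNexp (by positivity)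
          _ = 8 * (8 * q) ^ 3 * (Real.exp (γ * n / 12)) ^ 3 := by ring
          _ = 8 * (8 * q) ^ 3 * Real.exp (γ * n / 4) := by
              rw [← Real.exp_nat_mul]
              congr 2
              push_cast
              ring
      have h12 : (Iso.ball n (n / h) : ℝ) ≤ Real.exp (γ * n / 4) := by
        refine (ball_exp hh).trans (Real.exp_le_exp.2 ?_)
        calc (n : ℝ) * ((1 + Real.log h) / h) ≤ n * (γ / 4) :=
              mul_le_mul_of_nonneg_left hhγ (by positivity)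
          _ = γ * n / 4 := by ring
      calc (4 * (t + 1) ^ 3 * Iso.ball n (n / h) : ℝ)
          = 4 * (((t : ℝ) + 1) ^ 3 * Iso.ball n (n / h)) := by ring
        _ ≤ 4 * ((8 * (8 * q) ^ 3 * Real.exp (γ * n / 4)) * Real.exp (γ * n / 4)) := by
            apply mul_le_mul_of_nonneg_left _ (by norm_num)
            exact mul_le_mul h11 h12 (by positivity) (by positivity)
        _ = 32 * (8 * q) ^ 3 * (Real.exp (γ * n / 4) * Real.exp (γ * n / 4)) := by ring
        _ = 32 * (8 * q) ^ 3 * Real.exp (γ * n / 2) := by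
            rw [← Real.exp_add]
            congr 2
            ring
    have e3 : (K : ℝ) = 4 * (t + 1) ^ 3 * Iso.ball n (n / h) := by
      rw [hK]; push_cast; ring
    rw [e3, hhalf]
    set E := Real.exp (γ * n / 2) with hE
    have hE0 : 0 < E := Real.exp_pos _
    have f1 : (32 * (8 * (q : ℝ)) ^ 3) * E ≤ E * E :=
      mul_le_mul_of_nonneg_right (by linarith) hE0.le
    linarith
  have hγn0 : 0 ≤ γ * n := by positivity
  have hmain : ((M v).card : ℝ) ≤ Real.exp (4 * (γ * n)) * ((W + 1) * s) +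
      (((64 * q + 2 * h) * (N + 1)) ^ (64 * q + 2 * h) : ℕ) * (M v \ models φ).card := by
    refine finish (φ := φ) (Λ := Λ) (D := D) (W := W) (s := s) (h := h) (t := t) (K := K)
      (M := M) (𝒞 := 𝒞) hn0 hh (fun Γ hΓ => ?_) hNG (by rw [hK]) hP hv hγn0 hγn hKexp ?_
    · have : Γ ∈ (𝒞 : Set (X n → X n)) := by rw [h𝒞]; exact hΓ
      exact this
    · calc 8 * (t + 1) = 64 * q * (N + 1) := by rw [ht]; ring
        _ ≤ (64 * q + 2 * h) * (N + 1) := Nat.mul_le_mul_right _ (by omega)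
        _ ≤ ((64 * q + 2 * h) * (N + 1)) ^ (64 * q + 2 * h) :=
            Nat.le_self_pow (by omega) _
  constructor
  · refine hmain.trans (add_le_add ?_ le_rfl)
    apply mul_le_mul_of_nonneg_right _ (by positivity)
    rw [htarget2]
    apply Real.exp_le_exp.2
    have : 8 * γ * n = 8 * (γ * n) := by ring
    rw [this]
    linarith
  · intro hM
    have hMv : M v = models φ := by
      ext x
      rw [hM, mem_models]
    rw [hMv, sdiff_self] at hmain
    simp only [bot_eq_empty, card_empty, Nat.cast_zero, mul_zero, add_zero] at hmain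
    rw [htarget]
    have : 8 * γ * n = 8 * (γ * n) := by ring
    rw [this]
    exact finish_exact hγn hγn0 (hmod2.trans hmain)

/-- **Main theorem.** -/
theorem main (ε : ℝ) (hε : 0 < ε) :
    ∃ (c : ℝ) (b n0 : ℕ), 0 < c ∧ ∀ n ≥ n0, ∀ N : ℕ, (N : ℝ) ≤ 2 ^ (c * n) →
      ∀ (Λ : Set (X n → X n)) (D : ℕ), (comps Λ D).ncard ≤ 2 ^ (N * n) →
      ∃ (m k : ℕ) (φ : Fin m → Clause k n),
        2 ^ k ≤ (b * (N + 1)) ^ b ∧ m ≤ (b * (N + 1)) ^ b * n ∧
        (2 : ℝ) ^ ((1 - ε) * n) ≤ ({x | Sat φ x} : Set (X n)).ncard ∧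
        ∀ (s W : ℕ) (M : ℕ → Finset (X n)), IsProgram Λ D W s M → ∀ v < s,
          (((M v).card : ℝ) ≤ (2 : ℝ) ^ (ε * n) * ((W + 1) * s) +
            ((b * (N + 1)) ^ b : ℕ) * ({x | x ∈ M v ∧ ¬ Sat φ x} : Set (X n)).ncard) ∧
          ((∀ x, x ∈ M v ↔ Sat φ x) → (2 : ℝ) ^ ((1 - ε) * n) ≤ (W + 1) * s) := by
  have hε' : 0 < min ε 1 := lt_min hε one_pos
  obtain ⟨c, b, n0, hc, h⟩ := main_small (min ε 1) hε' (min_le_right _ _)
  refine ⟨c, b, n0, hc, fun n hn N hN Λ D hΛ => ?_⟩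
  obtain ⟨m, k, φ, h1, h2, h3, h4⟩ := h n hn N hN Λ D hΛ
  have hn0 : (0 : ℝ) ≤ n := by positivity
  have e1 : (2 : ℝ) ^ ((1 - ε) * n) ≤ (2 : ℝ) ^ ((1 - min ε 1) * n) := by
    apply Real.rpow_le_rpow_of_exponent_le (by norm_num)
    apply mul_le_mul_of_nonneg_right _ hn0
    linarith [min_le_left ε 1]
  have e2 : (2 : ℝ) ^ (min ε 1 * n) ≤ (2 : ℝ) ^ (ε * n) := by
    apply Real.rpow_le_rpow_of_exponent_le (by norm_num)
    exact mul_le_mul_of_nonneg_right (min_le_left ε 1) hn0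
  have e3 : ({x | Sat φ x} : Set (X n)).ncard = (models φ).card := by
    rw [← Set.ncard_coe_finset]
    congr 1
    ext x
    simp [mem_models]
  refine ⟨m, k, φ, h1, h2, ?_, fun s W M hP v hv => ?_⟩
  · rw [e3]
    exact e1.trans h3
  · obtain ⟨h5, h6⟩ := h4 s W M hP v hv
    constructor
    · have e4 : ({x | x ∈ M v ∧ ¬ Sat φ x} : Set (X n)).ncard = (M v \ models φ).card := by
        rw [← Set.ncard_coe_finset]
        congr 1
        ext x
        simp [mem_models]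
      rw [e4]
      refine h5.trans (add_le_add ?_ le_rfl)
      exact mul_le_mul_of_nonneg_right e2 (by positivity)
    · intro hM
      exact e1.trans (h6 hM)

end Pool.Agent.Helper56.Rep
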