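import Mathlib

/-!
Unambiguous programs with reparametrisations: the path argument.
-/

namespace Pool.Agent.Helper56.Rep

open Finset

/-- Assignments to `n` Boolean variables. -/
abbrev X (n : ℕ) := Fin n → Bool

/-- The composites of at most `D` maps of the family `Λ`. -/
def comps {n : ℕ} (Λ : Set (X n → X n)) : ℕ → Set (X n → X n)
  | 0 => {id}
  | D + 1 => comps Λ D ∪ {f | ∃ g ∈ comps Λ D, ∃ T ∈ Λ, f = g ∘ T}

theorem comps_succ {n : ℕ} {Λ : Set (X n → X n)} {D : ℕ} {g T : X n → X n}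
    (hg : g ∈ comps Λ D) (hT : T ∈ Λ) : g ∘ T ∈ comps Λ (D + 1) :=
  Or.inr ⟨g, hg, T, hT, rfl⟩

theorem comps_mono {n : ℕ} {Λ : Set (X n → X n)} {D D' : ℕ} (h : D ≤ D') :
    comps Λ D ⊆ comps Λ D' := by
  induction h with
  | refl => exact Set.Subset.refl _
  | step _ ih => exact ih.trans Set.subset_union_left

theorem id_mem_comps {n : ℕ} {Λ : Set (X n → X n)} {D : ℕ} : id ∈ comps Λ D :=
  comps_mono (Nat.zero_le D) (by simp [comps])

/-- Data of the decomposition of the gates with more than `K` elements that are not leaves. -/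
structure Dec {n : ℕ} (Λ : Set (X n → X n)) (D K W top : ℕ) (M : ℕ → Finset (X n)) where
  ch : ℕ → Finset (ℕ × (X n → X n))
  Lf : Set ℕ
  lfW : ∀ v ∈ Lf, (M v).card ≤ W
  d : ℕ → ℕ
  dtop : d top ≤ D
  lt : ∀ v ≤ top, v ∉ Lf → K < (M v).card → ∀ e ∈ ch v, e.1 < v
  dlt : ∀ v ≤ top, v ∉ Lf → K < (M v).card → ∀ e ∈ ch v, d e.1 < d v
  mem : ∀ v ≤ top, v ∉ Lf → K < (M v).card → ∀ e ∈ ch v, e.2 ∈ Λ
  sub : ∀ v ≤ top, v ∉ Lf → K < (M v).card → ∀ e ∈ ch v, ∀ u ∈ M e.1, e.2 u ∈ M v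
  ex : ∀ v ≤ top, v ∉ Lf → K < (M v).card → ∀ u ∈ M v, ∃ e ∈ ch v, ∃ u' ∈ M e.1, e.2 u' = u
  uniq : ∀ v ≤ top, v ∉ Lf → K < (M v).card → ∀ e ∈ ch v, ∀ e' ∈ ch v, ∀ u ∈ M e.1, ∀ u' ∈ M e'.1,
    e.2 u = e'.2 u' → e = e' ∧ u = u'
  light : ∀ v ≤ top, v ∉ Lf → K < (M v).card →
    ∑ e ∈ (ch v).filter (fun e => (M e.1).card ≤ K), (M e.1).card ≤ 2 * K ^ 2

variable {n : ℕ} {Λ : Set (X n → X n)} {D K W top : ℕ} {M : ℕ → Finset (X n)}

/-- `Γ` is a context of the gate `v`; the walk stops at gates in `St`, at leaves and at gates with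
at most `K` elements. -/
inductive Reach (P : Dec Λ D K W top M) (St : Set ℕ) : ℕ → (X n → X n) → Prop
  | root : Reach P St top id
  | step {v : ℕ} {Γ : X n → X n} (h : Reach P St v Γ) (hSt : v ∉ St) (hLf : v ∉ P.Lf)
      (hK : K < (M v).card) (e : ℕ × (X n → X n)) (he : e ∈ P.ch v) :
      Reach P St e.1 (Γ ∘ e.2)

namespace Dec

variable (P : Dec Λ D K W top M) {St : Set ℕ}

theorem reach_le {v : ℕ} {Γ : X n → X n} (h : Reach P St v Γ) : v ≤ top := by
  induction h with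
  | root => exact le_refl _
  | step _ _ hLf hK e he ih => exact (P.lt _ ih hLf hK e he).le.trans ih

theorem reach_mem {v : ℕ} {Γ : X n → X n} (h : Reach P St v Γ) : ∀ u ∈ M v, Γ u ∈ M top := by
  induction h with
  | root => intro u hu; exact hu
  | step h _ hLf hK e he ih =>
    intro u hu
    exact ih _ (P.sub _ (P.reach_le h) hLf hK e he u hu)

theorem reach_comps {v : ℕ} {Γ : X n → X n} (h : Reach P St v Γ) :
    P.d v ≤ D ∧ Γ ∈ comps Λ (D - P.d v) := by
  induction h with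
  | root => exact ⟨P.dtop, id_mem_comps⟩
  | step h _ hLf hK e he ih =>
    have hle := P.reach_le h
    have h1 := P.dlt _ hle hLf hK e he
    refine ⟨by omega, ?_⟩
    refine comps_mono (by omega) (comps_succ ih.2 (P.mem _ hle hLf hK e he))

/-- the contexts of `v` depend only on the part of the stop set above `v` -/
theorem reach_congr {St St' : Set ℕ} {v : ℕ} {Γ : X n → X n} (h : Reach P St v Γ) :
    ∀ v₀ ≤ v, (∀ w, v₀ < w → (w ∈ St ↔ w ∈ St')) → Reach P St' v Γ := by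
  induction h with
  | root => intro _ _ _; exact Reach.root
  | step h hSt hLf hK e he ih =>
    intro v₀ hv₀ hiff
    have hlt := P.lt _ (P.reach_le h) hLf hK e he
    refine Reach.step (ih v₀ (by omega) hiff) ?_ hLf hK e he
    intro h'
    exact hSt ((hiff _ (by omega)).2 h')

open Classical in
/-- one step of the trace -/
noncomputable def nx (St : Set ℕ) (z : ℕ × (X n → X n) × X n) : ℕ × (X n → X n) × X n :=
  if h : z.1 ≤ top ∧ z.1 ∉ P.Lf ∧ K < (M z.1).card ∧ z.2.2 ∈ M z.1 then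
    if z.1 ∈ St then z else
    ((P.ex z.1 h.1 h.2.1 h.2.2.1 z.2.2 h.2.2.2).choose.1,
      z.2.1 ∘ (P.ex z.1 h.1 h.2.1 h.2.2.1 z.2.2 h.2.2.2).choose.2,
      (P.ex z.1 h.1 h.2.1 h.2.2.1 z.2.2 h.2.2.2).choose_spec.2.choose)
  else z

theorem nx_lt (z : ℕ × (X n → X n) × X n) : P.nx St z = z ∨ (P.nx St z).1 < z.1 := by
  unfold nx
  split_ifs with h h'
  · left; rfl
  · right
    exact P.lt z.1 h.1 h.2.1 h.2.2.1 _
      (P.ex z.1 h.1 h.2.1 h.2.2.1 z.2.2 h.2.2.2).choose_spec.1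
  · left; rfl

theorem nx_le (z : ℕ × (X n → X n) × X n) : (P.nx St z).1 ≤ z.1 := by
  rcases P.nx_lt (St := St) z with h | h
  · rw [h]
  · exact h.le

theorem iter_le (k : ℕ) (z : ℕ × (X n → X n) × X n) : ((P.nx St)^[k] z).1 ≤ z.1 := by
  induction k with
  | zero => exact le_refl _
  | succ k ih =>
    rw [Function.iterate_succ_apply']
    exact (P.nx_le _).trans ih

theorem iter_fix {k : ℕ} {z : ℕ × (X n → X n) × X n} (h : ((P.nx St)^[k] z).1 = z.1) :
    (P.nx St)^[k] z = z := by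
  cases k with
  | zero => rfl
  | succ k =>
    rcases P.nx_lt (St := St) z with h1 | h1
    · exact Function.iterate_fixed h1 (k + 1)
    · exfalso
      rw [Function.iterate_succ_apply] at h
      have := P.iter_le (St := St) k (P.nx St z)
      omega

theorem nx_stop {v : ℕ} (hv : v ∈ St) (Γ : X n → X n) (u : X n) :
    P.nx St (v, Γ, u) = (v, Γ, u) := by
  unfold nx
  split_ifs with h
  · rfl
  · rfl

theorem nx_child {v : ℕ} (hv : v ≤ top) (hSt : v ∉ St) (hLf : v ∉ P.Lf)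
    (hK : K < (M v).card) {Γ : X n → X n}
    {e : ℕ × (X n → X n)} (he : e ∈ P.ch v) {u : X n} (hu : u ∈ M e.1) :
    P.nx St (v, Γ, e.2 u) = (e.1, Γ ∘ e.2, u) := by
  have hmem := P.sub v hv hLf hK e he u hu
  have h : v ≤ top ∧ v ∉ P.Lf ∧ K < (M v).card ∧ e.2 u ∈ M v := ⟨hv, hLf, hK, hmem⟩
  unfold nx
  rw [dif_pos h, if_neg hSt]
  have hs := (P.ex v hv hLf hK (e.2 u) hmem).choose_spec
  have hs2 := hs.2.choose_spec
  obtain ⟨h1, h2⟩ := P.uniq v hv hLf hK _ hs.1 e he _ hs2.1 u hu hs2.2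
  simp only
  rw [h2, h1]

theorem reach_iter {v : ℕ} {Γ : X n → X n} (h : Reach P St v Γ) :
    ∀ u ∈ M v, ∃ j, (P.nx St)^[j] (top, id, Γ u) = (v, Γ, u) := by
  induction h with
  | root => intro u _; exact ⟨0, rfl⟩
  | step h hSt hLf hK e he ih =>
    intro u hu
    have hle := P.reach_le h
    obtain ⟨j, hj⟩ := ih _ (P.sub _ hle hLf hK e he u hu)
    refine ⟨j + 1, ?_⟩
    rw [Function.iterate_succ_apply']
    simp only [Function.comp]
    rw [hj]
    exact P.nx_child hle hSt hLf hK he hu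

theorem reach_inj {v : ℕ} {Γ Γ' : X n → X n} (h : Reach P St v Γ) (h' : Reach P St v Γ')
    {u u' : X n} (hu : u ∈ M v) (hu' : u' ∈ M v) (heq : Γ u = Γ' u') : Γ = Γ' ∧ u = u' := by
  obtain ⟨j, hj⟩ := P.reach_iter h u hu
  obtain ⟨j', hj'⟩ := P.reach_iter h' u' hu'
  rw [heq] at hj
  rcases le_total j j' with hle | hle
  · obtain ⟨k, rfl⟩ := Nat.exists_eq_add_of_le hle
    rw [add_comm, Function.iterate_add_apply, hj] at hj'
    have h1 := P.iter_fix (St := St) (k := k) (z := (v, Γ, u)) (by rw [hj'])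
    rw [h1] at hj'
    simp only [Prod.mk.injEq] at hj'
    exact ⟨hj'.2.1, hj'.2.2⟩
  · obtain ⟨k, rfl⟩ := Nat.exists_eq_add_of_le hle
    rw [add_comm, Function.iterate_add_apply, hj'] at hj
    have h1 := P.iter_fix (St := St) (k := k) (z := (v, Γ', u')) (by rw [hj])
    rw [h1] at hj
    simp only [Prod.mk.injEq] at hj
    exact ⟨hj.2.1.symm, hj.2.2.symm⟩

/-- every element is caught by at most one stopped gate -/
theorem stop_inj {v v' : ℕ} {Γ Γ' : X n → X n} (hv : v ∈ St) (hv' : v' ∈ St)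
    (h : Reach P St v Γ) (h' : Reach P St v' Γ')
    {u u' : X n} (hu : u ∈ M v) (hu' : u' ∈ M v') (heq : Γ u = Γ' u') :
    v = v' ∧ Γ = Γ' ∧ u = u' := by
  obtain ⟨j, hj⟩ := P.reach_iter h u hu
  obtain ⟨j', hj'⟩ := P.reach_iter h' u' hu'
  rw [heq] at hj
  rcases le_total j j' with hle | hle
  · obtain ⟨k, rfl⟩ := Nat.exists_eq_add_of_le hle
    rw [add_comm, Function.iterate_add_apply, hj,
      Function.iterate_fixed (P.nx_stop hv Γ u) k] at hj'
    simp only [Prod.mk.injEq] at hj'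
    exact ⟨hj'.1, hj'.2.1, hj'.2.2⟩
  · obtain ⟨k, rfl⟩ := Nat.exists_eq_add_of_le hle
    rw [add_comm, Function.iterate_add_apply, hj',
      Function.iterate_fixed (P.nx_stop hv' Γ' u') k] at hj
    simp only [Prod.mk.injEq] at hj
    exact ⟨hj.1.symm, hj.2.1.symm, hj.2.2.symm⟩

open Classical in
/-- the contexts of a gate -/
noncomputable def ctx (St : Set ℕ) (v : ℕ) : Finset (X n → X n) :=
  univ.filter (fun Γ => Reach P St v Γ)

theorem mem_ctx {v : ℕ} {Γ : X n → X n} : Γ ∈ P.ctx St v ↔ Reach P St v Γ := by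
  unfold ctx; simp

theorem ctx_congr {St St' : Set ℕ} {v : ℕ} (hiff : ∀ w, v < w → (w ∈ St ↔ w ∈ St')) :
    P.ctx St v = P.ctx St' v := by
  ext Γ
  rw [P.mem_ctx, P.mem_ctx]
  exact ⟨fun h => P.reach_congr h v le_rfl hiff,
    fun h => P.reach_congr h v le_rfl (fun w hw => (hiff w hw).symm)⟩

/-- there is a stop set that consists exactly of the gates with many contexts -/
theorem exists_stop : ∃ St : Set ℕ, ∀ v ≤ top, (v ∈ St ↔ K < (P.ctx St v).card) := by
  have key : ∀ j : ℕ, ∃ St : Set ℕ, ∀ v ≤ top, top < v + j →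
      (v ∈ St ↔ K < (P.ctx St v).card) := by
    intro j
    induction j with
    | zero => exact ⟨∅, fun v hv h => by omega⟩
    | succ j ih =>
      obtain ⟨St, hSt⟩ := ih
      by_cases hj : j ≤ top
      · obtain ⟨v₀, hv₀⟩ : ∃ v₀, v₀ = top - j := ⟨_, rfl⟩
        refine ⟨{v | (v ≠ v₀ ∧ v ∈ St) ∨ (v = v₀ ∧ K < (P.ctx St v₀).card)},
          fun v hv h => ?_⟩
        have hc : P.ctx {v | (v ≠ v₀ ∧ v ∈ St) ∨ (v = v₀ ∧ K < (P.ctx St v₀).card)} v =
            P.ctx St v := by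
          apply P.ctx_congr
          intro w hw
          have hne : w ≠ v₀ := by omega
          simp [hne]
        rw [hc]
        by_cases hvv : v = v₀
        · subst hvv
          simp
        · have := hSt v hv (by omega)
          rw [← this]
          simp [hvv]
      · exact ⟨St, fun v hv h => hSt v hv (by omega)⟩
  obtain ⟨St, hSt⟩ := key (top + 1)
  exact ⟨St, fun v hv => hSt v hv (by omega)⟩

theorem captured {v : ℕ} {Γ : X n → X n} (h : Reach P St v Γ) (hK : K < (M v).card) :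
    ∀ u ∈ M v,
      (∃ p Γ', Reach P St p Γ' ∧ p ∈ St ∧ K < (M p).card ∧ ∃ u' ∈ M p, Γ' u' = Γ u) ∨
      (∃ p Γ', Reach P St p Γ' ∧ p ∉ St ∧ p ∈ P.Lf ∧ ∃ u' ∈ M p, Γ' u' = Γ u) ∨
      (∃ p Γ', Reach P St p Γ' ∧ p ∉ St ∧ p ∉ P.Lf ∧ K < (M p).card ∧
        ∃ e ∈ P.ch p, (M e.1).card ≤ K ∧ ∃ u' ∈ M e.1, Γ' (e.2 u') = Γ u) := by
  induction v using Nat.strong_induction_on generalizing Γ with
  | _ v ih =>
    intro u hu
    have hv := P.reach_le h
    by_cases hSt : v ∈ St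
    · exact Or.inl ⟨v, Γ, h, hSt, hK, u, hu, rfl⟩
    by_cases hLf : v ∈ P.Lf
    · exact Or.inr (Or.inl ⟨v, Γ, h, hSt, hLf, u, hu, rfl⟩)
    obtain ⟨e, he, u', hu', heq⟩ := P.ex v hv hLf hK u hu
    by_cases hl : (M e.1).card ≤ K
    · exact Or.inr (Or.inr ⟨v, Γ, h, hSt, hLf, hK, e, he, hl, u', hu', by rw [heq]⟩)
    · push Not at hl
      rcases ih e.1 (P.lt v hv hLf hK e he) (Reach.step h hSt hLf hK e he) hl u' hu' with
        ⟨p, Γ', h1, h2, h3, u'', h5, h6⟩ | ⟨p, Γ', h1, h2, h3, u'', h5, h6⟩ |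
        ⟨p, Γ', h1, h2, h2', h3, e', h4, h5, u'', h6, h7⟩
      · exact Or.inl ⟨p, Γ', h1, h2, h3, u'', h5, by rw [h6]; simp [heq]⟩
      · exact Or.inr (Or.inl ⟨p, Γ', h1, h2, h3, u'', h5, by rw [h6]; simp [heq]⟩)
      · exact Or.inr (Or.inr ⟨p, Γ', h1, h2, h2', h3, e', h4, h5, u'', h6,
          by rw [h7]; simp [heq]⟩)

/-- **The count.** Suppose that every gate with more than `K` elements and more than `K` contexts
has a proportion of at least `1 / A` of pairs (context, element) that give an element outside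
`G`.  Then the number of elements of the top gate is at most the number of gates times
`K (2 K ^ 2 + W)` plus `A` times the number of elements outside `G`. -/
theorem count (G : Finset (X n)) (A : ℕ) (htop : K < (M top).card)
    (hgrid : ∀ St : Set ℕ, ∀ v ≤ top, K < (M v).card → K < (P.ctx St v).card →
      (P.ctx St v).card * (M v).card ≤
        A * ((P.ctx St v ×ˢ M v).filter (fun q => q.1 q.2 ∉ G)).card) :
    (M top).card ≤ (top + 1) * (K * (2 * K ^ 2 + W)) + A * (M top \ G).card := by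
  classical
  obtain ⟨St, hSt⟩ := P.exists_stop
  set L : ℕ → Finset (X n) := fun p =>
    if p ∉ St ∧ p ∈ P.Lf then
      (P.ctx St p).biUnion (fun Γ => (M p).image Γ)
    else if p ∉ St ∧ p ∉ P.Lf ∧ K < (M p).card then
      (P.ctx St p).biUnion (fun Γ => ((P.ch p).filter (fun e => (M e.1).card ≤ K)).biUnion
        (fun e => (M e.1).image (fun u => Γ (e.2 u))))
    else ∅ with hL
  set T : Finset ℕ := (range (top + 1)).filter (fun p => p ∈ St ∧ K < (M p).card) with hT
  set S : Finset (X n) := T.biUnion (fun p => (P.ctx St p ×ˢ M p).image (fun q => q.1 q.2))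
    with hS
  have hsub : M top ⊆ (range (top + 1)).biUnion L ∪ S := by
    intro x hx
    rcases P.captured (St := St) Reach.root htop x hx with
      ⟨p, Γ', h1, h2, h3, u', h5, h6⟩ | ⟨p, Γ', h1, h2, h3, u', h5, h6⟩ |
      ⟨p, Γ', h1, h2, h2', h3, e, h4, h5, u', h6, h7⟩
    · apply mem_union_right
      rw [hS, mem_biUnion]
      refine ⟨p, mem_filter.2 ⟨mem_range.2 (by have := P.reach_le h1; omega), h2, h3⟩, ?_⟩
      exact mem_image.2 ⟨(Γ', u'), mem_product.2 ⟨P.mem_ctx.2 h1, h5⟩, h6⟩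
    · apply mem_union_left
      rw [mem_biUnion]
      refine ⟨p, mem_range.2 (by have := P.reach_le h1; omega), ?_⟩
      rw [hL]
      simp only [if_pos (And.intro h2 h3), mem_biUnion, mem_image]
      exact ⟨Γ', P.mem_ctx.2 h1, u', h5, h6⟩
    · apply mem_union_left
      rw [mem_biUnion]
      refine ⟨p, mem_range.2 (by have := P.reach_le h1; omega), ?_⟩
      rw [hL]
      simp only [if_neg (fun h : p ∉ St ∧ p ∈ P.Lf => h2' h.2),
        if_pos (And.intro h2 (And.intro h2' h3)), mem_biUnion, mem_filter, mem_image]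
      exact ⟨Γ', P.mem_ctx.2 h1, e, ⟨h4, h5⟩, u', h6, h7⟩
  have hLcard : ((range (top + 1)).biUnion L).card ≤ (top + 1) * (K * (2 * K ^ 2 + W)) := by
    refine card_biUnion_le.trans ?_
    refine (Finset.sum_le_card_nsmul _ _ (K * (2 * K ^ 2 + W)) (fun p hp => ?_)).trans ?_
    · rw [mem_range] at hp
      rw [hL]
      simp only
      split_ifs with hK1 hK2
      · refine card_biUnion_le.trans ?_
        refine (Finset.sum_le_card_nsmul _ _ W (fun Γ _ => ?_)).trans ?_
        · exact card_image_le.trans (P.lfW p hK1.2)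
        · rw [smul_eq_mul]
          have h1 := (hSt p (by omega)).not.1 hK1.1
          exact Nat.mul_le_mul (by omega) (by omega)
      · refine card_biUnion_le.trans ?_
        refine (Finset.sum_le_card_nsmul _ _ (2 * K ^ 2) (fun Γ _ => ?_)).trans ?_
        · refine card_biUnion_le.trans (le_trans ?_ (P.light p (by omega) hK2.2.1 hK2.2.2))
          exact Finset.sum_le_sum (fun e _ => card_image_le)
        · rw [smul_eq_mul]
          have h1 := (hSt p (by omega)).not.1 hK2.1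
          exact Nat.mul_le_mul (by omega) (by omega)
      · simp
    · rw [card_range, smul_eq_mul]
  have hScard : S.card ≤ A * (M top \ G).card := by
    -- the triples
    have h1 : S.card ≤ ∑ p ∈ T, (P.ctx St p).card * (M p).card := by
      refine card_biUnion_le.trans (Finset.sum_le_sum (fun p _ => ?_))
      exact card_image_le.trans (by rw [card_product])
    have h2 : ∑ p ∈ T, (P.ctx St p).card * (M p).card ≤
        ∑ p ∈ T, A * ((P.ctx St p ×ˢ M p).filter (fun q => q.1 q.2 ∉ G)).card := by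
      apply Finset.sum_le_sum
      intro p hp
      obtain ⟨hp1, hp2, hp3⟩ := mem_filter.1 hp
      rw [mem_range] at hp1
      exact hgrid St p (by omega) hp3 ((hSt p (by omega)).1 hp2)
    have h3 : ∑ p ∈ T, ((P.ctx St p ×ˢ M p).filter (fun q => q.1 q.2 ∉ G)).card ≤
        (M top \ G).card := by
      have h4 : ∑ p ∈ T, ((P.ctx St p ×ˢ M p).filter (fun q => q.1 q.2 ∉ G)).card =
          (T.sigma (fun p => (P.ctx St p ×ˢ M p).filter (fun q => q.1 q.2 ∉ G))).card := by
        rw [card_sigma]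
      rw [h4]
      apply Finset.card_le_card_of_injOn (fun z => z.2.1 z.2.2)
      · rintro ⟨p, Γ, u⟩ hz
        obtain ⟨_, hzq⟩ := mem_sigma.1 (mem_coe.1 hz)
        obtain ⟨hzq1, hz3⟩ := mem_filter.1 hzq
        obtain ⟨hz1, hz2⟩ := mem_product.1 hzq1
        rw [mem_coe, mem_sdiff]
        exact ⟨P.reach_mem (P.mem_ctx.1 hz1) u hz2, hz3⟩
      · rintro ⟨p, Γ, u⟩ hz ⟨p', Γ', u'⟩ hz' heq
        obtain ⟨hp, hzq⟩ := mem_sigma.1 (mem_coe.1 hz)
        obtain ⟨hz1, hz2⟩ := mem_product.1 (mem_filter.1 hzq).1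
        obtain ⟨hp', hzq'⟩ := mem_sigma.1 (mem_coe.1 hz')
        obtain ⟨hz1', hz2'⟩ := mem_product.1 (mem_filter.1 hzq').1
        obtain ⟨e1, e2, e3⟩ := P.stop_inj (mem_filter.1 hp).2.1 (mem_filter.1 hp').2.1
          (P.mem_ctx.1 hz1) (P.mem_ctx.1 hz1') hz2 hz2' heq
        simp only at e1 e2 e3
        subst e1 e2 e3
        rfl
    calc S.card ≤ ∑ p ∈ T, (P.ctx St p).card * (M p).card := h1
      _ ≤ ∑ p ∈ T, A * ((P.ctx St p ×ˢ M p).filter (fun q => q.1 q.2 ∉ G)).card := h2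
      _ = A * ∑ p ∈ T, ((P.ctx St p ×ˢ M p).filter (fun q => q.1 q.2 ∉ G)).card := by
          rw [Finset.mul_sum]
      _ ≤ A * (M top \ G).card := Nat.mul_le_mul_left _ h3
  calc (M top).card ≤ ((range (top + 1)).biUnion L ∪ S).card := card_le_card hsub
    _ ≤ ((range (top + 1)).biUnion L).card + S.card := card_union_le _ _
    _ ≤ _ := Nat.add_le_add hLcard hScard

end Dec

end Pool.Agent.Helper56.Rep
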